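import Pool.Agent.T2H95.LR.Stm

set_option autoImplicit false

open MeasureTheory Filter Topology Finset

namespace Pool.Agent.T2H95.LR

namespace CNT

lemma mem_sqT {J : Type} [Fintype J] [DecidableEq J] {N : ℕ} {v : J → ℕ} :
    v ∈ sqT J N ↔ v ∈ Fintype.piFinset (fun _ : J => Icc 1 N) ∧ ∃ m : ℕ, ∏ j, v j = m ^ 2 := by
  classical
  unfold sqT
  exact Finset.mem_filter

lemma mem_tup {J : Type} [Fintype J] [DecidableEq J] {m : ℕ} {v : J → ℕ} :
    v ∈ tup J m ↔ (∀ j, v j ∈ Icc 1 m) ∧ ∏ j, v j = m := by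
  unfold tup
  rw [Finset.mem_filter, Fintype.mem_piFinset]

/-- the square root of the product -/
def rt {J : Type} [Fintype J] (v : J → ℕ) : ℕ := Nat.sqrt (∏ j, v j)

lemma rt_sq {J : Type} [Fintype J] [DecidableEq J] {N : ℕ} {v : J → ℕ} (h : v ∈ sqT J N) :
    ∏ j, v j = rt v ^ 2 := by
  obtain ⟨-, m, hm⟩ := mem_sqT.1 h
  unfold rt
  rw [hm, Nat.sqrt_eq']

lemma pos {J : Type} [Fintype J] [DecidableEq J] {N : ℕ} {v : J → ℕ} (h : v ∈ sqT J N) (j : J) :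
    1 ≤ v j ∧ v j ≤ N :=
  Finset.mem_Icc.1 (Fintype.mem_piFinset.1 (mem_sqT.1 h).1 j)

/-- the pairs (tuple, choice of divisors) -/
noncomputable def AA (J : Type) [Fintype J] [DecidableEq J] (N : ℕ) :
    Finset (Σ _ : J → ℕ, J → ℕ) :=
  (sqT J N).sigma fun v => Fintype.piFinset fun j => (v j).divisors

/-- the target -/
noncomputable def BB (J : Type) [Fintype J] [DecidableEq J] (M : ℕ) :
    Finset (Σ _ : ℕ, J ⊕ J → ℕ) :=
  (Icc 1 M).sigma fun m => tup (J ⊕ J) (m ^ 2)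

/-- the injection -/
def ff {J : Type} [Fintype J] (x : Σ _ : J → ℕ, J → ℕ) : Σ _ : ℕ, J ⊕ J → ℕ :=
  ⟨rt x.1, Sum.elim x.2 fun j => x.1 j / x.2 j⟩

lemma ff_inj {J : Type} [Fintype J] [DecidableEq J] (N : ℕ) :
    Set.InjOn (ff : (Σ _ : J → ℕ, J → ℕ) → _) (AA J N) := by
  rintro ⟨v, a⟩ hv ⟨v', a'⟩ hv' h
  have hv1 := (Finset.mem_sigma.1 hv).2
  have hv2 := (Finset.mem_sigma.1 hv').2
  rw [Fintype.mem_piFinset] at hv1 hv2
  unfold ff at h
  rw [Sigma.mk.injEq] at h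
  have h2 := eq_of_heq h.2
  have ha : a = a' := by
    funext j
    exact congrFun h2 (Sum.inl j)
  subst ha
  have hvv : v = v' := by
    funext j
    have h3 : v j / a j = v' j / a j := congrFun h2 (Sum.inr j)
    have d1 : a j ∣ v j := Nat.dvd_of_mem_divisors (hv1 j)
    have d2 : a j ∣ v' j := Nat.dvd_of_mem_divisors (hv2 j)
    calc v j = v j / a j * a j := (Nat.div_mul_cancel d1).symm
      _ = v' j / a j * a j := by rw [h3]
      _ = v' j := Nat.div_mul_cancel d2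
  subst hvv
  rfl

lemma ff_maps {J : Type} [Fintype J] [DecidableEq J] (N k : ℕ) (hJ : Fintype.card J = 2 * k) :
    ∀ x ∈ AA J N, ff x ∈ BB J (N ^ k) := by
  rintro ⟨v, a⟩ hx
  have hv := (Finset.mem_sigma.1 hx).1
  have ha := (Finset.mem_sigma.1 hx).2
  rw [Fintype.mem_piFinset] at ha
  simp only at hv ha
  have hp := pos hv
  have hsq := rt_sq hv
  have hprod1 : 1 ≤ ∏ j, v j := Nat.one_le_iff_ne_zero.2
    (Finset.prod_ne_zero_iff.2 fun j _ => by have := (hp j).1; omega)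
  have hrt1 : 1 ≤ rt v := by
    rcases Nat.eq_zero_or_pos (rt v) with h | h
    · rw [hsq, h] at hprod1; simp at hprod1
    · exact h
  have hrt2 : rt v ≤ N ^ k := by
    have h1 : ∏ j, v j ≤ N ^ (2 * k) := by
      rw [← hJ, ← Finset.card_univ, ← Finset.prod_const]
      exact Finset.prod_le_prod' fun j _ => (hp j).2
    rw [hsq, mul_comm 2 k, pow_mul] at h1
    exact (Nat.pow_le_pow_iff_left two_ne_zero).1 h1
  unfold BB ff
  rw [Finset.mem_sigma]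
  refine ⟨Finset.mem_Icc.2 ⟨hrt1, hrt2⟩, ?_⟩
  rw [mem_tup]
  have hdiv : ∀ j, a j ∣ v j := fun j => Nat.dvd_of_mem_divisors (ha j)
  have hprod : ∏ j : J ⊕ J, Sum.elim a (fun j => v j / a j) j = rt v ^ 2 := by
    rw [Fintype.prod_sum_type]
    simp only [Sum.elim_inl, Sum.elim_inr]
    rw [← Finset.prod_mul_distrib, ← hsq]
    exact Finset.prod_congr rfl fun j _ => Nat.mul_div_cancel' (hdiv j)
  refine ⟨?_, hprod⟩
  intro j
  have hne : ∏ j : J ⊕ J, Sum.elim a (fun j => v j / a j) j ≠ 0 := by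
    rw [hprod]; positivity
  have hj0 : Sum.elim a (fun j => v j / a j) j ≠ 0 :=
    (Finset.prod_ne_zero_iff.1 hne) j (Finset.mem_univ _)
  have hjd : Sum.elim a (fun j => v j / a j) j ∣ rt v ^ 2 := by
    rw [← hprod]
    exact Finset.dvd_prod_of_mem _ (Finset.mem_univ _)
  exact Finset.mem_Icc.2 ⟨Nat.one_le_iff_ne_zero.2 hj0, Nat.le_of_dvd (by positivity) hjd⟩

end CNT

open CNT in
theorem pCNT (hSQC : S_SQC) (hTT : S_TT) : S_CNT := by
  intro k N hk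
  set J := Fin k ⊕ Fin k with hJdef
  have hJ : Fintype.card J = 2 * k := by
    simp [hJdef, two_mul]
  have h1 : ∑ v ∈ sqT J N, ∏ j, ((v j).divisors.card : ℝ) / Real.sqrt (v j) =
      ∑ x ∈ AA J N, 1 / ((rt x.1 : ℕ) : ℝ) := by
    unfold AA
    rw [Finset.sum_sigma]
    refine Finset.sum_congr rfl fun v hv => ?_
    show _ = ∑ s ∈ Fintype.piFinset fun j => (v j).divisors, 1 / ((rt v : ℕ) : ℝ)
    rw [Finset.sum_const, Fintype.card_piFinset, nsmul_eq_mul, Finset.prod_div_distrib]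
    have h2 : ∏ j, Real.sqrt ((v j : ℕ) : ℝ) = ((rt v : ℕ) : ℝ) := by
      rw [← Real.sqrt_prod _ (fun j _ => Nat.cast_nonneg _), ← Nat.cast_prod, rt_sq hv]
      push_cast
      exact Real.sqrt_sq (Nat.cast_nonneg _)
    rw [h2]
    push_cast
    ring
  rw [h1]
  have h2 : ∑ x ∈ AA J N, 1 / ((rt x.1 : ℕ) : ℝ) =
      ∑ y ∈ (AA J N).image ff, 1 / ((y.1 : ℕ) : ℝ) := by
    rw [Finset.sum_image (ff_inj N)]
    rfl
  have h3 : ∑ y ∈ (AA J N).image ff, 1 / ((y.1 : ℕ) : ℝ) ≤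
      ∑ y ∈ BB J (N ^ k), 1 / ((y.1 : ℕ) : ℝ) := by
    refine Finset.sum_le_sum_of_subset_of_nonneg ?_ fun y _ _ => by positivity
    intro y hy
    obtain ⟨x, hx, rfl⟩ := Finset.mem_image.1 hy
    exact ff_maps N k hJ x hx
  have h4 : ∑ y ∈ BB J (N ^ k), 1 / ((y.1 : ℕ) : ℝ) =
      ∑ m ∈ Icc 1 (N ^ k), ((tup (J ⊕ J) (m ^ 2)).card : ℝ) / m := by
    unfold BB
    rw [Finset.sum_sigma]
    refine Finset.sum_congr rfl fun m _ => ?_
    show ∑ s ∈ tup (J ⊕ J) (m ^ 2), 1 / (m : ℝ) = _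
    rw [Finset.sum_const, nsmul_eq_mul, mul_one_div]
  have h5 : ∑ m ∈ Icc 1 (N ^ k), ((tup (J ⊕ J) (m ^ 2)).card : ℝ) / m ≤
      ∑ m ∈ Icc 1 (N ^ k), ((tup (J ⊕ J) m).card : ℝ) ^ 2 / m := by
    refine Finset.sum_le_sum fun m hm => ?_
    exact div_le_div_of_nonneg_right (hSQC (J ⊕ J) m (Finset.mem_Icc.1 hm).1) (Nat.cast_nonneg _)
  have h6 := hTT (J ⊕ J) (N ^ k)
  have h7 : Fintype.card (J ⊕ J) ^ 2 = 16 * k ^ 2 := by
    rw [Fintype.card_sum, hJ]; ring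
  rw [h7] at h6
  linarith

end Pool.Agent.T2H95.LR
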