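import Pool.Agent.T2H95.LR.Stm

set_option autoImplicit false

open MeasureTheory Filter Topology Finset

namespace Pool.Agent.T2H95.LR

namespace EXP

/-- the coefficients -/
noncomputable def co (g : ℕ → ℂ) {k : ℕ} : Fin k ⊕ Fin k → ℕ → ℂ
  | Sum.inl _, n => g n * ((1 / Real.sqrt n : ℝ) : ℂ)
  | Sum.inr _, n => (starRingEnd ℂ) (g n) * ((1 / Real.sqrt n : ℝ) : ℂ)

lemma co_norm (g : ℕ → ℂ) (hg : ∀ n, ‖g n‖ ≤ 1) {k : ℕ} (j : Fin k ⊕ Fin k) (n : ℕ) :
    ‖co g j n‖ ≤ 1 / Real.sqrt n := by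
  have h0 : (0 : ℝ) ≤ 1 / Real.sqrt n := by positivity
  have h1 : ‖((1 / Real.sqrt n : ℝ) : ℂ)‖ = 1 / Real.sqrt n := by
    rw [Complex.norm_real, Real.norm_of_nonneg h0]
  rcases j with j | j
  · simp only [co]
    rw [norm_mul, h1]
    exact mul_le_of_le_one_left h0 (hg n)
  · simp only [co]
    rw [norm_mul, h1, RCLike.norm_conj]
    exact mul_le_of_le_one_left h0 (hg n)

/-- the expansion -/
lemma expand (x : ℕ → ℝ) (g : ℕ → ℂ) (k N : ℕ) :
    (((‖W x g N‖ ^ (2 * k) : ℝ)) : ℂ) =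
      ∑ v ∈ Fintype.piFinset (fun _ : Fin k ⊕ Fin k => Icc 1 N),
        ((∏ j, lam x (v j) : ℝ) : ℂ) * ∏ j, co g j (v j) := by
  have h1 : (((‖W x g N‖ ^ (2 * k) : ℝ)) : ℂ) = W x g N ^ k * (starRingEnd ℂ) (W x g N) ^ k := by
    rw [← mul_pow, Complex.mul_conj, Complex.normSq_eq_norm_sq, pow_mul]
    push_cast
    rfl
  have h2 : W x g N ^ k * (starRingEnd ℂ) (W x g N) ^ k =
      ∏ j : Fin k ⊕ Fin k, ∑ n ∈ Icc 1 N, (lam x n : ℂ) * co g j n := by
    have hl : ∀ i : Fin k, ∑ n ∈ Icc 1 N, (lam x n : ℂ) * co g (Sum.inl i : Fin k ⊕ Fin k) n =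
        W x g N := by
      intro i
      unfold W
      refine Finset.sum_congr rfl fun n _ => ?_
      simp only [co]
      ring
    have hr : ∀ i : Fin k, ∑ n ∈ Icc 1 N, (lam x n : ℂ) * co g (Sum.inr i : Fin k ⊕ Fin k) n =
        (starRingEnd ℂ) (W x g N) := by
      intro i
      unfold W
      rw [map_sum]
      refine Finset.sum_congr rfl fun n _ => ?_
      simp only [co, map_mul, Complex.conj_ofReal]
      ring
    rw [Fintype.prod_sum_type, Finset.prod_congr rfl fun i _ => hl i,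
      Finset.prod_congr rfl fun i _ => hr i, Finset.prod_const, Finset.prod_const,
      Finset.card_univ, Fintype.card_fin]
  rw [h1, h2, Finset.prod_univ_sum]
  refine Finset.sum_congr rfl fun v _ => ?_
  rw [Finset.prod_mul_distrib]
  push_cast
  rfl

lemma mem_sqT {J : Type} [Fintype J] [DecidableEq J] {N : ℕ} {v : J → ℕ} :
    v ∈ sqT J N ↔ v ∈ Fintype.piFinset (fun _ : J => Icc 1 N) ∧ ∃ m : ℕ, ∏ j, v j = m ^ 2 := by
  classical
  unfold sqT
  exact Finset.mem_filter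

end EXP

open EXP in
theorem pEXP (hLAM : S_LAM) (hPAR : S_PAR) : S_EXP := by
  intro μ hμ g hg k N hk
  obtain ⟨hlam, hcont⟩ := hLAM
  have : ∀ p, IsProbabilityMeasure (μ p) := hμ.prob
  set P := Measure.infinitePi μ with hP
  -- almost surely all traces are bounded by 2
  have hae : ∀ᵐ x ∂P, ∀ p, |x p| ≤ 2 := by
    rw [ae_all_iff]
    intro p
    have h1 : P.map (fun x : ℕ → ℝ => x p) = μ p := Measure.infinitePi_map_eval μ p
    have h2 := hμ.bdd p
    rw [← h1] at h2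
    exact ae_of_ae_map (measurable_pi_apply p).aemeasurable h2
  set D : (Fin k ⊕ Fin k → ℕ) → ℝ := fun v => ∏ j, ((v j).divisors.card : ℝ) with hD
  have hbd : ∀ v ∈ Fintype.piFinset (fun _ : Fin k ⊕ Fin k => Icc 1 N),
      ∀ᵐ x ∂P, ‖((∏ j, lam x (v j) : ℝ))‖ ≤ D v := by
    intro v hv
    filter_upwards [hae] with x hx
    rw [Real.norm_eq_abs, Finset.abs_prod]
    refine Finset.prod_le_prod (fun j _ => abs_nonneg _) fun j _ => ?_
    exact hlam x (v j) hx (Finset.mem_Icc.1 (Fintype.mem_piFinset.1 hv j)).1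
  have hmeas : ∀ v : Fin k ⊕ Fin k → ℕ, Measurable fun x : ℕ → ℝ => ∏ j, lam x (v j) := fun v =>
    (continuous_finsetProd _ fun j _ => hcont (v j)).measurable
  have hint : ∀ v ∈ Fintype.piFinset (fun _ : Fin k ⊕ Fin k => Icc 1 N),
      Integrable (fun x : ℕ → ℝ => ∏ j, lam x (v j)) P := fun v hv =>
    Integrable.of_bound (hmeas v).aestronglyMeasurable (D v) (hbd v hv)
  have hF : Integrable (fun x => (((‖W x g N‖ ^ (2 * k) : ℝ)) : ℂ)) P := by
    have : (fun x => (((‖W x g N‖ ^ (2 * k) : ℝ)) : ℂ)) = fun x =>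
      ∑ v ∈ Fintype.piFinset (fun _ : Fin k ⊕ Fin k => Icc 1 N),
        ((∏ j, lam x (v j) : ℝ) : ℂ) * ∏ j, co g j (v j) := by
      funext x
      exact expand x g k N
    rw [this]
    exact integrable_finsetSum _ fun v hv => (hint v hv).ofReal.mul_const _
  refine ⟨?_, ?_⟩
  · have := hF.re
    refine this.congr (ae_of_all _ fun x => ?_)
    show RCLike.re (((‖W x g N‖ ^ (2 * k) : ℝ)) : ℂ) = _
    exact Complex.ofReal_re _
  · have h1 : ((∫ x, ‖W x g N‖ ^ (2 * k) ∂P : ℝ) : ℂ) =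
        ∑ v ∈ Fintype.piFinset (fun _ : Fin k ⊕ Fin k => Icc 1 N),
          ((∫ x, ∏ j, lam x (v j) ∂P : ℝ) : ℂ) * ∏ j, co g j (v j) := by
      rw [← integral_complex_ofReal]
      have : (fun x => (((‖W x g N‖ ^ (2 * k) : ℝ)) : ℂ)) = fun x =>
        ∑ v ∈ Fintype.piFinset (fun _ : Fin k ⊕ Fin k => Icc 1 N),
          ((∏ j, lam x (v j) : ℝ) : ℂ) * ∏ j, co g j (v j) := by
        funext x
        exact expand x g k N
      rw [this, integral_finsetSum _ fun v hv => (hint v hv).ofReal.mul_const _]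
      refine Finset.sum_congr rfl fun v _ => ?_
      rw [integral_mul_const, integral_complex_ofReal]
    have h2 : ∫ x, ‖W x g N‖ ^ (2 * k) ∂P ≤
        ‖((∫ x, ‖W x g N‖ ^ (2 * k) ∂P : ℝ) : ℂ)‖ := by
      rw [Complex.norm_real]
      exact le_abs_self _
    refine h2.trans ?_
    rw [h1]
    refine (norm_sum_le _ _).trans ?_
    -- terms
    have h3 : ∀ v ∈ Fintype.piFinset (fun _ : Fin k ⊕ Fin k => Icc 1 N),
        ‖((∫ x, ∏ j, lam x (v j) ∂P : ℝ) : ℂ) * ∏ j, co g j (v j)‖ ≤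
          D v * ∏ j, (1 / Real.sqrt (v j)) := by
      intro v hv
      rw [norm_mul, Complex.norm_real, norm_prod]
      have h4 : ‖∫ x, ∏ j, lam x (v j) ∂P‖ ≤ D v := by
        have := norm_integral_le_of_norm_le_const (hbd v hv)
        simpa using this
      have h5 : ∏ j, ‖co g j (v j)‖ ≤ ∏ j, (1 / Real.sqrt (v j)) :=
        Finset.prod_le_prod (fun j _ => norm_nonneg _) fun j _ => co_norm g hg j (v j)
      exact mul_le_mul h4 h5 (Finset.prod_nonneg fun j _ => norm_nonneg _)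
        ((norm_nonneg _).trans h4)
    have h6 : ∑ v ∈ Fintype.piFinset (fun _ : Fin k ⊕ Fin k => Icc 1 N),
        ‖((∫ x, ∏ j, lam x (v j) ∂P : ℝ) : ℂ) * ∏ j, co g j (v j)‖ =
        ∑ v ∈ sqT (Fin k ⊕ Fin k) N,
        ‖((∫ x, ∏ j, lam x (v j) ∂P : ℝ) : ℂ) * ∏ j, co g j (v j)‖ := by
      symm
      refine Finset.sum_subset (fun v hv => (mem_sqT.1 hv).1) ?_
      intro v hv hv'
      have hns : ¬ ∃ m : ℕ, ∏ j, v j = m ^ 2 := fun h => hv' (mem_sqT.2 ⟨hv, h⟩)
      have h0 : ∀ j, v j ≠ 0 := fun j => by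
        have := (Finset.mem_Icc.1 (Fintype.mem_piFinset.1 hv j)).1
        omega
      rw [hPAR μ hμ (Fin k ⊕ Fin k) v h0 hns]
      simp
    rw [h6]
    refine Finset.sum_le_sum fun v hv => ?_
    have hv' : v ∈ Fintype.piFinset (fun _ : Fin k ⊕ Fin k => Icc 1 N) := (mem_sqT.1 hv).1
    refine (h3 v hv').trans (le_of_eq ?_)
    rw [hD, ← Finset.prod_mul_distrib]
    refine Finset.prod_congr rfl fun j _ => ?_
    rw [mul_one_div]

end Pool.Agent.T2H95.LR
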