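import Pool.Agent.T2H95.LR.Stm

/-! # Package HE -/

set_option autoImplicit false

open MeasureTheory Filter Topology Finset

namespace Pool.Agent.T2H95.LR

namespace HE

lemma neg_he (x : ℝ) (j : ℕ) : he (-x) j = (-1) ^ j * he x j := by
  induction j using Nat.twoStepInduction with
  | zero => simp [he]
  | one => simp [he]
  | more j h1 h2 =>
    rw [he, he, h1, h2]
    ring

lemma he_cont (j : ℕ) : Continuous fun x : ℝ => he x j := by
  induction j using Nat.twoStepInduction with
  | zero => simpa [he] using continuous_const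
  | one => simpa [he] using continuous_id'
  | more j h1 h2 =>
    simp only [he]
    exact (continuous_id.mul h2).sub h1

lemma he_two (j : ℕ) : he 2 j = j + 1 := by
  induction j using Nat.twoStepInduction with
  | zero => simp [he]
  | one => simp [he]; norm_num
  | more j h1 h2 =>
    rw [he, h1, h2]
    push_cast
    ring

lemma he_sin (φ : ℝ) (j : ℕ) :
    he (2 * Real.cos φ) j * Real.sin φ = Real.sin (((j : ℝ) + 1) * φ) := by
  induction j using Nat.twoStepInduction with
  | zero => simp [he]
  | one =>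
    simp only [he]
    rw [show (((1 : ℕ) : ℝ) + 1) * φ = 2 * φ by push_cast; ring, Real.sin_two_mul]
    ring
  | more j h1 h2 =>
    rw [he, sub_mul, mul_assoc, h2, h1]
    have e1 : (((j + 2 : ℕ) : ℝ) + 1) * φ = (((j + 1 : ℕ) : ℝ) + 1) * φ + φ := by push_cast; ring
    have e2 : ((j : ℝ) + 1) * φ = (((j + 1 : ℕ) : ℝ) + 1) * φ - φ := by push_cast; ring
    rw [e1, e2, Real.sin_add, Real.sin_sub]
    ring

lemma abs_sin_le (j : ℕ) (φ : ℝ) : |Real.sin ((j : ℝ) * φ)| ≤ j * |Real.sin φ| := by
  induction j with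
  | zero => simp
  | succ j ih =>
    have e1 : ((j + 1 : ℕ) : ℝ) * φ = (j : ℝ) * φ + φ := by push_cast; ring
    rw [e1, Real.sin_add]
    calc |Real.sin (j * φ) * Real.cos φ + Real.cos (j * φ) * Real.sin φ|
        ≤ |Real.sin (j * φ) * Real.cos φ| + |Real.cos (j * φ) * Real.sin φ| := abs_add_le _ _
      _ = |Real.sin (j * φ)| * |Real.cos φ| + |Real.cos (j * φ)| * |Real.sin φ| := by
          rw [abs_mul, abs_mul]
      _ ≤ (j * |Real.sin φ|) * 1 + 1 * |Real.sin φ| := by
          gcongr
          · exact Real.abs_cos_le_one φ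
          · exact Real.abs_cos_le_one _
      _ = _ := by push_cast; ring

lemma he_bound (x : ℝ) (j : ℕ) (hx : |x| ≤ 2) : |he x j| ≤ j + 1 := by
  obtain ⟨h1, h2⟩ := abs_le.mp hx
  have hc : Real.cos (Real.arccos (x / 2)) = x / 2 :=
    Real.cos_arccos (by linarith) (by linarith)
  have hxe : x = 2 * Real.cos (Real.arccos (x / 2)) := by rw [hc]; ring
  by_cases hs : Real.sin (Real.arccos (x / 2)) = 0
  · have h3 : (x / 2) ^ 2 = 1 := by
      have := Real.sin_sq_add_cos_sq (Real.arccos (x / 2))
      rw [hs, hc] at this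
      linarith
    have h4 : x = 2 ∨ x = -2 := by
      have : (x - 2) * (x + 2) = 0 := by nlinarith
      rcases mul_eq_zero.mp this with h | h
      · left; linarith
      · right; linarith
    rcases h4 with rfl | rfl
    · rw [he_two]
      rw [abs_of_nonneg (by positivity)]
    · rw [neg_he, he_two, abs_mul, abs_pow, abs_neg, abs_one, one_pow, one_mul,
        abs_of_nonneg (by positivity)]
  · have h3 := he_sin (Real.arccos (x / 2)) j
    rw [← hxe] at h3
    have h4 := abs_sin_le (j + 1) (Real.arccos (x / 2))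
    have e : (((j + 1 : ℕ) : ℝ)) * Real.arccos (x / 2) = ((j : ℝ) + 1) * Real.arccos (x / 2) := by
      push_cast; ring
    rw [e, ← h3, abs_mul] at h4
    have h5 : 0 < |Real.sin (Real.arccos (x / 2))| := abs_pos.mpr hs
    have h6 := le_of_mul_le_mul_right h4 h5
    push_cast at h6
    exact h6

end HE

theorem pHE : S_HE := ⟨HE.neg_he, HE.he_bound, HE.he_cont⟩

end Pool.Agent.T2H95.LR
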