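import Pool.Agent.T2H95.LR.Stm

/-! # Package LAM -/

set_option autoImplicit false

open MeasureTheory Filter Topology Finset

namespace Pool.Agent.T2H95.LR

theorem pLAM (hHE : S_HE) : S_LAM := by
  obtain ⟨-, hb, hc⟩ := hHE
  constructor
  · intro x n hx hn
    unfold lam
    rw [Finset.abs_prod, Nat.card_divisors (by omega)]
    push_cast
    exact Finset.prod_le_prod (fun p _ => abs_nonneg _) fun p _ => hb (x p) _ (hx p)
  · intro n
    unfold lam
    exact continuous_finsetProd _ fun p _ => (hc _).comp (continuous_apply p)

end Pool.Agent.T2H95.LR
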