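import Pool.Agent.T2H95.LR.Stm

/-!
# Package MAT of project LR: two factorisations of `m` come from a matrix
-/

set_option autoImplicit false

open MeasureTheory Filter Topology Finset

namespace Pool.Agent.T2H95.LR

namespace MAT

lemma aux (hREF : S_REF) (ι κ : Type) [Fintype κ] [DecidableEq ι] (u : ι → ℕ) (s : Finset ι) :
    ∀ v : κ → ℕ, ∏ i ∈ s, u i ≠ 0 → ∏ j, v j = ∏ i ∈ s, u i →
      ∃ x : ι → κ → ℕ, (∀ i ∈ s, ∏ j, x i j = u i) ∧ ∀ j, ∏ i ∈ s, x i j = v j := by
  induction s using Finset.induction_on with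
  | empty =>
    intro v _ hv
    refine ⟨fun _ _ => 1, by simp, fun j => ?_⟩
    rw [prod_empty] at hv ⊢
    have h1 : v j ∣ ∏ j, v j := dvd_prod_of_mem v (mem_univ j)
    rw [hv] at h1
    exact (Nat.dvd_one.mp h1).symm
  | insert i₀ s hi ih =>
    intro v h0 hv
    rw [prod_insert hi] at h0 hv
    have ha : u i₀ ≠ 0 := left_ne_zero_of_mul h0
    have hb : ∏ i ∈ s, u i ≠ 0 := right_ne_zero_of_mul h0
    obtain ⟨a, b, hab, hpa, hpb⟩ := hREF κ v (u i₀) (∏ i ∈ s, u i) ha hb hv
    obtain ⟨x, hx1, hx2⟩ := ih b hb hpb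
    have hne : ∀ i ∈ s, i ≠ i₀ := fun i his h => hi (h ▸ his)
    refine ⟨Function.update x i₀ a, ?_, ?_⟩
    · intro i his
      rw [mem_insert] at his
      rcases his with rfl | his
      · rw [Function.update_self]; exact hpa
      · rw [Function.update_of_ne (hne i his)]; exact hx1 i his
    · intro j
      rw [prod_insert hi, Function.update_self, hab j]
      congr 1
      rw [← hx2 j]
      exact prod_congr rfl fun i his => by rw [Function.update_of_ne (hne i his)]

end MAT

theorem pMAT (hREF : S_REF) : S_MAT := by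
  classical
  intro ι κ _ _ u v m hm hu hv
  obtain ⟨x, h1, h2⟩ := MAT.aux hREF ι κ u univ v (by rw [hu]; exact hm) (by rw [hu, hv])
  exact ⟨x, fun i => h1 i (mem_univ i), h2⟩

end Pool.Agent.T2H95.LR
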