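import Pool.Agent.T2H95.LR.Stm

/-!
# LR, package PAR: orthogonality by parity
-/

set_option autoImplicit false

open MeasureTheory Filter Topology Finset

namespace Pool.Agent.T2H95.LR

namespace PAR

/-- change the sign of the coordinate `p` -/
noncomputable def cf (p i : ℕ) (x : ℝ) : ℝ := if i = p then -x else x

theorem cf_meas (p i : ℕ) : Measurable (cf p i) := by
  unfold cf
  split_ifs
  · exact measurable_neg
  · exact measurable_id

/-- the sign change as an equivalence -/
noncomputable def eq (p : ℕ) : (ℕ → ℝ) ≃ᵐ (ℕ → ℝ) where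
  toFun x i := cf p i (x i)
  invFun x i := cf p i (x i)
  left_inv x := by
    funext i
    simp only [cf]
    split_ifs <;> simp
  right_inv x := by
    funext i
    simp only [cf]
    split_ifs <;> simp
  measurable_toFun := by
    refine measurable_pi_lambda _ fun i => (cf_meas p i).comp (measurable_pi_apply i)
  measurable_invFun := by
    refine measurable_pi_lambda _ fun i => (cf_meas p i).comp (measurable_pi_apply i)

theorem eq_apply (p : ℕ) (x : ℕ → ℝ) (i : ℕ) : eq p x i = cf p i (x i) := rfl

theorem mp (μ : ℕ → Measure ℝ) (hμ : Adm μ) (p : ℕ) :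
    MeasurePreserving (eq p) (Measure.infinitePi μ) (Measure.infinitePi μ) := by
  have : ∀ i, IsProbabilityMeasure (μ i) := hμ.prob
  refine ⟨(eq p).measurable, ?_⟩
  have h := Measure.infinitePi_map_pi (μ := μ) (f := fun i => cf p i) (fun i => cf_meas p i)
  have h2 : (fun i => (μ i).map (cf p i)) = μ := by
    funext i
    by_cases hi : i = p
    · have : cf p i = fun x => -x := by
        funext x
        simp [cf, hi]
      rw [this]
      exact hμ.symm i
    · have : cf p i = id := by
        funext x
        simp [cf, hi]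
      rw [this, Measure.map_id]
  rw [h2] at h
  exact h

theorem lam_eq (hHE : S_HE) (p : ℕ) (x : ℕ → ℝ) (n : ℕ) :
    lam (eq p x) n = (-1) ^ (n.factorization p) * lam x n := by
  unfold lam
  by_cases hp : p ∈ n.primeFactors
  · rw [← Finset.mul_prod_erase _ _ hp, ← Finset.mul_prod_erase _ (fun r => he (x r) _) hp]
    have e1 : he (eq p x p) (n.factorization p) =
        (-1) ^ (n.factorization p) * he (x p) (n.factorization p) := by
      rw [eq_apply]
      simp only [cf, if_true]
      exact hHE.1 _ _
    have e2 : ∏ r ∈ n.primeFactors.erase p, he (eq p x r) (n.factorization r) =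
        ∏ r ∈ n.primeFactors.erase p, he (x r) (n.factorization r) := by
      refine Finset.prod_congr rfl fun r hr => ?_
      rw [eq_apply, cf, if_neg (Finset.ne_of_mem_erase hr)]
    rw [e1, e2, mul_assoc]
  · have h0 : n.factorization p = 0 := by
      rw [← Finsupp.notMem_support_iff, Nat.support_factorization]
      exact hp
    rw [h0, pow_zero, one_mul]
    refine Finset.prod_congr rfl fun r hr => ?_
    have : r ≠ p := fun h => hp (h ▸ hr)
    rw [eq_apply, cf, if_neg this]

theorem exists_odd {n : ℕ} (hn : n ≠ 0) (h : ¬ ∃ m : ℕ, n = m ^ 2) :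
    ∃ p, Odd (n.factorization p) := by
  by_contra hc
  push Not at hc
  apply h
  refine ⟨n.factorization.prod fun p e => p ^ (e / 2), ?_⟩
  conv_lhs => rw [← Nat.prod_factorization_pow_eq_self hn]
  unfold Finsupp.prod
  rw [← Finset.prod_pow]
  refine Finset.prod_congr rfl fun p _ => ?_
  have he : Even (n.factorization p) := Nat.not_odd_iff_even.1 (hc p)
  rw [← pow_mul, Nat.div_mul_cancel he.two_dvd]

end PAR

open PAR in
theorem pPAR (hHE : S_HE) (_ : S_LAM) : S_PAR := by
  intro μ hμ J _ v hv hsq
  have hn : ∏ j, v j ≠ 0 := Finset.prod_ne_zero_iff.2 fun j _ => hv j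
  obtain ⟨p, hp⟩ := exists_odd hn hsq
  have hfac : (∏ j, v j).factorization p = ∑ j, (v j).factorization p := by
    rw [Nat.factorization_prod fun j _ => hv j]
    simp
  have hint : ∀ x, ∏ j, lam (eq p x) (v j) = -∏ j, lam x (v j) := by
    intro x
    simp_rw [lam_eq hHE]
    rw [Finset.prod_mul_distrib, Finset.prod_pow_eq_pow_sum, ← hfac, hp.neg_one_pow]
    ring
  have h1 := (mp μ hμ p).integral_comp' (fun x => ∏ j, lam x (v j))
  simp_rw [hint] at h1
  rw [integral_neg] at h1
  linarith

end Pool.Agent.T2H95.LR
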