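import Pool.Agent.T2H95.LR.Stm

/-! # Package SQC -/

set_option autoImplicit false

open MeasureTheory Filter Topology Finset

namespace Pool.Agent.T2H95.LR

namespace SQC

lemma mem_tup {J : Type} [Fintype J] [DecidableEq J] {m : ℕ} (hm : 1 ≤ m) (v : J → ℕ) :
    v ∈ tup J m ↔ ∏ j, v j = m := by
  unfold tup
  rw [Finset.mem_filter, Fintype.mem_piFinset]
  constructor
  · exact fun h => h.2
  · intro h
    refine ⟨fun j => ?_, h⟩
    have h1 : v j ∣ m := by
      rw [← h]
      exact Finset.dvd_prod_of_mem v (Finset.mem_univ j)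
    rw [Finset.mem_Icc]
    exact ⟨Nat.pos_of_dvd_of_pos h1 hm, Nat.le_of_dvd hm h1⟩

end SQC

theorem pSQC (hREF : S_REF) : S_SQC := by
  intro J _ _ m hm
  have hm0 : m ≠ 0 := by omega
  have h2 : 1 ≤ m ^ 2 := Nat.one_le_pow _ _ hm
  have hsub : tup J (m ^ 2) ⊆
      ((tup J m) ×ˢ (tup J m)).image (fun p : (J → ℕ) × (J → ℕ) => fun j => p.1 j * p.2 j) := by
    intro w hw
    rw [SQC.mem_tup h2] at hw
    obtain ⟨u, v, h3, h4, h5⟩ := hREF J w m m hm0 hm0 (by rw [hw]; ring)
    rw [Finset.mem_image]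
    refine ⟨(u, v), ?_, ?_⟩
    · rw [Finset.mem_product]
      exact ⟨(SQC.mem_tup hm u).mpr h4, (SQC.mem_tup hm v).mpr h5⟩
    · funext j
      exact (h3 j).symm
  have h3 := (Finset.card_le_card hsub).trans Finset.card_image_le
  rw [Finset.card_product] at h3
  have h4 : ((tup J (m ^ 2)).card : ℝ) ≤ (((tup J m).card * (tup J m).card : ℕ) : ℝ) := by
    exact_mod_cast h3
  refine h4.trans (le_of_eq ?_)
  push_cast
  ring

end Pool.Agent.T2H95.LR
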