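import Pool.Agent.T2H95.LR.Stm

/-!
# LR, package TT: pairs of factorizations
-/

set_option autoImplicit false

open MeasureTheory Filter Topology Finset

namespace Pool.Agent.T2H95.LR

namespace TT

theorem entries {J : Type} [Fintype J] (x : J → J → ℕ) (m : ℕ) (hm : 1 ≤ m)
    (h : ∏ i, ∏ j, x i j = m) (i j : J) : 1 ≤ x i j ∧ x i j ≤ m := by
  have h1 : x i j ∣ m := by
    rw [← h]
    exact (Finset.dvd_prod_of_mem (fun j => x i j) (Finset.mem_univ j)).trans
      (Finset.dvd_prod_of_mem (fun i => ∏ j, x i j) (Finset.mem_univ i))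
  exact ⟨Nat.pos_of_dvd_of_pos h1 hm, Nat.le_of_dvd hm h1⟩

end TT

open TT in
theorem pTT (hMAT : S_MAT) : S_TT := by
  intro J _ _ M
  classical
  have hex : ∀ s : (Σ _ : ℕ, (J → ℕ) × (J → ℕ)),
      s ∈ (Icc 1 M).sigma (fun m => tup J m ×ˢ tup J m) →
      ∃ x : J × J → ℕ, (∀ i, ∏ j, x (i, j) = s.2.1 i) ∧ (∀ j, ∏ i, x (i, j) = s.2.2 j) ∧
        ∏ i, ∏ j, x (i, j) = s.1 := by
    rintro ⟨m, u, v⟩ hs
    rw [Finset.mem_sigma, Finset.mem_product] at hs
    obtain ⟨hm, hu, hv⟩ := hs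
    have hm1 := (Finset.mem_Icc.1 hm).1
    have hu' : ∏ j, u j = m := (Finset.mem_filter.1 hu).2
    have hv' : ∏ j, v j = m := (Finset.mem_filter.1 hv).2
    obtain ⟨x, hx1, hx2⟩ := hMAT J J u v m (by simp only at hm1; omega) hu' hv'
    refine ⟨fun q => x q.1 q.2, hx1, hx2, ?_⟩
    simp only
    rw [← hu']
    exact Finset.prod_congr rfl fun i _ => hx1 i
  choose! ψ hψ1 hψ2 hψ3 using hex
  set S := (Icc 1 M).sigma (fun m => tup J m ×ˢ tup J m) with hS
  set X : Finset (J × J → ℕ) := Fintype.piFinset fun _ => Icc 1 M with hX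
  have hlhs : ∑ m ∈ Icc 1 M, ((tup J m).card : ℝ) ^ 2 / m = ∑ s ∈ S, 1 / (s.1 : ℝ) := by
    rw [hS, Finset.sum_sigma]
    refine Finset.sum_congr rfl fun m _ => ?_
    simp only [Finset.sum_const, Finset.card_product, nsmul_eq_mul]
    push_cast
    ring
  have hprod : ∀ s ∈ S, ∏ q : J × J, (1 / (ψ s q : ℝ)) = 1 / (s.1 : ℝ) := by
    intro s hs
    have h := hψ3 s hs
    rw [Fintype.prod_prod_type]
    simp only [one_div, Finset.prod_inv_distrib]
    congr 1
    rw [← h]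
    push_cast
    rfl
  have hinj : Set.InjOn ψ S := by
    intro s hs t ht hst
    obtain ⟨m, u, v⟩ := s
    obtain ⟨m', u', v'⟩ := t
    have e1 := hψ3 _ hs
    have e2 := hψ3 _ ht
    rw [hst] at e1
    have em : m = m' := e1.symm.trans e2
    have eu : u = u' := by
      funext i
      have a := hψ1 _ hs i
      have b := hψ1 _ ht i
      rw [hst] at a
      exact a.symm.trans b
    have ev : v = v' := by
      funext i
      have a := hψ2 _ hs i
      have b := hψ2 _ ht i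
      rw [hst] at a
      exact a.symm.trans b
    subst em eu ev
    rfl
  have hsub : S.image ψ ⊆ X := by
    intro x hx
    obtain ⟨s, hs, rfl⟩ := Finset.mem_image.1 hx
    rw [hX, Fintype.mem_piFinset]
    rintro ⟨i, j⟩
    have hsm := (Finset.mem_Icc.1 (Finset.mem_sigma.1 hs).1)
    have := entries (fun i j => ψ s (i, j)) s.1 hsm.1 (hψ3 s hs) i j
    rw [Finset.mem_Icc]
    exact ⟨this.1, this.2.trans hsm.2⟩
  have hH : H M ^ (Fintype.card J ^ 2) = ∑ x ∈ X, ∏ q : J × J, (1 / (x q : ℝ)) := by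
    rw [hX, ← Finset.prod_univ_sum (fun _ : J × J => Icc 1 M) (fun _ n => 1 / (n : ℝ))]
    rw [Finset.prod_const, Finset.card_univ, Fintype.card_prod, sq]
    rfl
  rw [hlhs, hH]
  calc ∑ s ∈ S, 1 / (s.1 : ℝ) = ∑ s ∈ S, ∏ q : J × J, (1 / (ψ s q : ℝ)) :=
        Finset.sum_congr rfl fun s hs => (hprod s hs).symm
    _ = ∑ x ∈ S.image ψ, ∏ q : J × J, (1 / (x q : ℝ)) := 
        (Finset.sum_image (f := fun x : J × J → ℕ => ∏ q : J × J, (1 / (x q : ℝ))) hinj).symm
    _ ≤ _ := Finset.sum_le_sum_of_subset_of_nonneg hsub fun x _ _ =>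
        Finset.prod_nonneg fun q _ => by positivity

end Pool.Agent.T2H95.LR
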