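import Pool.Agent.T2H95.LR.Stm

set_option autoImplicit false

open MeasureTheory Filter Topology Finset

namespace Pool.Agent.T2H95.LR

namespace BC

/-- the weight `χ(n) n^{-it}` -/
noncomputable def gw {q : ℕ} (χ : DirichletCharacter ℂ q) (t : ℝ) (n : ℕ) : ℂ :=
  if n = 0 then 0 else χ n * (n : ℂ) ^ (-(t * Complex.I))

lemma norm_gw {q : ℕ} (χ : DirichletCharacter ℂ q) (t : ℝ) (n : ℕ) : ‖gw χ t n‖ ≤ 1 := by
  unfold gw
  split_ifs with h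
  · simp
  · rw [norm_mul]
    have h1 : ‖(n : ℂ) ^ (-(t * Complex.I))‖ = 1 := by
      rw [Complex.norm_natCast_cpow_of_pos (Nat.pos_of_ne_zero h)]
      simp
    rw [h1, mul_one]
    exact DirichletCharacter.norm_le_one χ _

lemma S_eq_W (x : ℕ → ℝ) {q : ℕ} (χ : DirichletCharacter ℂ q) (N : ℕ) (t : ℝ) :
    S x χ N t = W x (gw χ t) N := by
  unfold S W
  refine Finset.sum_congr rfl fun n hn => ?_
  have hn1 : 1 ≤ n := (Finset.mem_Icc.1 hn).1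
  have hn0 : n ≠ 0 := by omega
  have hnc : (n : ℂ) ≠ 0 := by exact_mod_cast hn0
  have h1 : (n : ℂ) ^ (-(1 / 2 : ℂ) - t * Complex.I) =
      ((1 / Real.sqrt n : ℝ) : ℂ) * (n : ℂ) ^ (-(t * Complex.I)) := by
    rw [sub_eq_add_neg, Complex.cpow_add _ _ hnc]
    congr 1
    have h2 : ((n : ℝ) ^ (-(1 / 2 : ℝ)) : ℝ) = 1 / Real.sqrt n := by
      rw [Real.rpow_neg (by positivity), Real.sqrt_eq_rpow]
      simp only [one_div]
    rw [← h2, Complex.ofReal_cpow (by positivity)]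
    push_cast
    rfl
  rw [h1]
  unfold gw
  rw [if_neg hn0]
  ring

lemma card_char (q : ℕ) (hq : 1 ≤ q) : Nat.card (DirichletCharacter ℂ q) ≤ q := by
  have : NeZero q := ⟨by omega⟩
  rw [DirichletCharacter.card_eq_totient_of_hasEnoughRootsOfUnity]
  exact Nat.totient_le q

/-- Markov for one character, one `N`, one `t`. -/
lemma markov (hMOM : S_MOM) (μ : ℕ → Measure ℝ) (hμ : Adm μ) {q : ℕ} (χ : DirichletCharacter ℂ q)
    (N k Q : ℕ) (t V : ℝ) (hk : 1 ≤ k) (hN : N ≤ Q) (hQ : 1 ≤ Q) (hV : 0 < V) :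
    Measure.infinitePi μ {x | V < ‖S x χ N t‖} ≤
      ENNReal.ofReal ((1 + k * Real.log Q) ^ (16 * k ^ 2) / V ^ (2 * k)) := by
  have := hμ.prob
  have hlogQ : 0 ≤ Real.log Q := Real.log_nonneg (by exact_mod_cast hQ)
  rcases Nat.eq_zero_or_pos N with h0 | hN1
  · subst h0
    have : {x : ℕ → ℝ | V < ‖S x χ 0 t‖} = ∅ := by
      ext x
      simp [S, hV.le]
    rw [this]
    simp
  · obtain ⟨hint, hle⟩ := hMOM μ hμ (gw χ t) (norm_gw χ t) k N hk hN1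
    have h1 := mul_meas_ge_le_integral_of_nonneg (μ := Measure.infinitePi μ)
      (f := fun x => ‖W x (gw χ t) N‖ ^ (2 * k)) (ae_of_all _ fun x => by positivity) hint (V ^ (2 * k))
    have hVk : 0 < V ^ (2 * k) := by positivity
    have h2 : (Measure.infinitePi μ).real {x | V ^ (2 * k) ≤ ‖W x (gw χ t) N‖ ^ (2 * k)} ≤
        (1 + k * Real.log Q) ^ (16 * k ^ 2) / V ^ (2 * k) := by
      rw [le_div_iff₀ hVk, mul_comm]
      refine h1.trans (hle.trans ?_)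
      have hlN : 0 ≤ Real.log N := Real.log_nonneg (by exact_mod_cast hN1)
      have hlNQ : Real.log N ≤ Real.log Q :=
        Real.log_le_log (by exact_mod_cast hN1) (by exact_mod_cast hN)
      gcongr
    have h3 : {x : ℕ → ℝ | V < ‖S x χ N t‖} ⊆ {x | V ^ (2 * k) ≤ ‖W x (gw χ t) N‖ ^ (2 * k)} := by
      intro x hx
      simp only [Set.mem_ofPred_eq] at hx ⊢
      rw [S_eq_W] at hx
      gcongr
    refine (measure_mono h3).trans ?_
    rw [← ofReal_measureReal (μ := Measure.infinitePi μ)]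
    exact ENNReal.ofReal_le_ofReal h2

/-- the bad event -/
def E (V : ℝ) (Q : ℕ) : Set (ℕ → ℝ) :=
  {x | ∃ (q N : ℕ) (χ : DirichletCharacter ℂ q) (j : ℤ), 1 ≤ q ∧ q ≤ Q ∧ N ≤ Q ∧ |j| ≤ (Q : ℤ) ^ 3 ∧
    V < ‖S x χ N ((j : ℝ) / (Q : ℝ) ^ 2)‖}

lemma E_sub (V : ℝ) (Q : ℕ) : E V Q ⊆
    ⋃ q ∈ Icc 1 Q, ⋃ χ ∈ (Finset.univ : Finset (DirichletCharacter ℂ q)), ⋃ N ∈ Finset.range (Q + 1),
      ⋃ j ∈ Icc (-(Q : ℤ) ^ 3) ((Q : ℤ) ^ 3), {x | V < ‖S x χ N ((j : ℝ) / (Q : ℝ) ^ 2)‖} := by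
  rintro x ⟨q, N, χ, j, hq1, hqQ, hN, hj, hx⟩
  simp only [Set.mem_iUnion]
  refine ⟨q, Finset.mem_Icc.2 ⟨hq1, hqQ⟩, χ, Finset.mem_univ _, N, Finset.mem_range.2 (by omega), j, ?_, hx⟩
  rw [Finset.mem_Icc]
  exact abs_le.1 hj

lemma sum_bound (b : ENNReal) (Q : ℕ) (hQ : 3 ≤ Q) :
    (∑ q ∈ Icc 1 Q, ∑ _χ ∈ (Finset.univ : Finset (DirichletCharacter ℂ q)), ∑ _N ∈ Finset.range (Q + 1),
      ∑ _j ∈ Icc (-(Q : ℤ) ^ 3) ((Q : ℤ) ^ 3), b) ≤ ((Q ^ 8 : ℕ) : ENNReal) * b := by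
  simp only [Finset.sum_const, Finset.card_range, nsmul_eq_mul, Int.card_Icc]
  have h1 : ∀ q ∈ Icc 1 Q, (((Finset.univ : Finset (DirichletCharacter ℂ q)).card : ℕ) : ENNReal) *
      (((Q + 1 : ℕ) : ENNReal) * ((((Q : ℤ) ^ 3 + 1 - -(Q : ℤ) ^ 3).toNat : ENNReal) * b)) ≤
      (Q : ENNReal) * (((Q + 1 : ℕ) : ENNReal) * (((2 * Q ^ 3 + 1 : ℕ) : ENNReal) * b)) := by
    intro q hq
    obtain ⟨hq1, hqQ⟩ := Finset.mem_Icc.1 hq
    have h2 : (Finset.univ : Finset (DirichletCharacter ℂ q)).card ≤ Q := by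
      rw [Finset.card_univ, ← Nat.card_eq_fintype_card]
      exact (card_char q hq1).trans hqQ
    have h3 : ((Q : ℤ) ^ 3 + 1 - -(Q : ℤ) ^ 3).toNat = 2 * Q ^ 3 + 1 := by
      have : ((Q : ℤ) ^ 3 + 1 - -(Q : ℤ) ^ 3) = ((2 * Q ^ 3 + 1 : ℕ) : ℤ) := by push_cast; ring
      rw [this, Int.toNat_natCast]
    rw [h3]
    gcongr
  refine (Finset.sum_le_sum h1).trans ?_
  rw [Finset.sum_const, Nat.card_Icc, nsmul_eq_mul]
  simp only [← mul_assoc, ← Nat.cast_mul]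
  gcongr
  have h5 : Q + 1 ≤ Q * Q := by nlinarith
  have h6 : 2 * Q ^ 3 + 1 ≤ Q ^ 4 := by
    have : Q ^ 4 = Q * Q ^ 3 := by ring
    rw [this]
    have h7 : 1 ≤ Q ^ 3 := Nat.one_le_pow _ _ (by omega)
    nlinarith
  calc (Q + 1 - 1) * Q * (Q + 1) * (2 * Q ^ 3 + 1) ≤ Q * Q * (Q * Q) * Q ^ 4 := by
        rw [Nat.add_sub_cancel]
        gcongr
    _ = Q ^ 8 := by ring

lemma meas_E (hMOM : S_MOM) (μ : ℕ → Measure ℝ) (hμ : Adm μ) (V : ℝ) (hV : 0 < V) (Q k : ℕ) (hQ : 3 ≤ Q)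
    (hk : 1 ≤ k) :
    Measure.infinitePi μ (E V Q) ≤
      ENNReal.ofReal ((Q : ℝ) ^ 8 * ((1 + k * Real.log Q) ^ (16 * k ^ 2) / V ^ (2 * k))) := by
  refine (measure_mono (E_sub V Q)).trans ?_
  have h1 : ENNReal.ofReal ((Q : ℝ) ^ 8 * ((1 + k * Real.log Q) ^ (16 * k ^ 2) / V ^ (2 * k))) =
      ((Q ^ 8 : ℕ) : ENNReal) * ENNReal.ofReal ((1 + k * Real.log Q) ^ (16 * k ^ 2) / V ^ (2 * k)) := by
    rw [ENNReal.ofReal_mul (by positivity)]
    congr 1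
    rw [← ENNReal.ofReal_natCast]
    congr 1
    push_cast
    rfl
  rw [h1]
  refine le_trans ?_ (sum_bound _ Q hQ)
  refine (measure_biUnion_finset_le _ _).trans (Finset.sum_le_sum fun q _ => ?_)
  refine (measure_biUnion_finset_le _ _).trans (Finset.sum_le_sum fun χ _ => ?_)
  refine (measure_biUnion_finset_le _ _).trans (Finset.sum_le_sum fun N hN => ?_)
  refine (measure_biUnion_finset_le _ _).trans (Finset.sum_le_sum fun j _ => ?_)
  exact markov hMOM μ hμ χ N k Q _ V hk (by have := Finset.mem_range.1 hN; omega) (by omega) hV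

end BC

theorem pBC (hMOM : S_MOM) (hOPT : S_OPT) : S_BC := by
  intro μ hμ
  obtain ⟨Q0, hQ0⟩ := Filter.eventually_atTop.1 hOPT
  set V : ℕ → ℝ := fun Q => Real.exp (101 * Real.sqrt (Real.log Q * Real.log (Real.log Q))) with hV
  set Q1 : ℕ := max Q0 3 with hQ1
  set B : ℕ → Set (ℕ → ℝ) := fun Q => if Q1 ≤ Q then BC.E (V Q) Q else ∅ with hB
  have hBle : ∀ Q : ℕ, Measure.infinitePi μ (B Q) ≤ ENNReal.ofReal (1 / (Q : ℝ) ^ 2) := by
    intro Q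
    by_cases h : Q1 ≤ Q
    · have hQ03 : Q0 ≤ Q := le_trans (le_max_left _ _) h
      have hQ3 : 3 ≤ Q := le_trans (le_max_right _ _) h
      obtain ⟨k, hk, hle⟩ := hQ0 Q hQ03
      have h1 := BC.meas_E hMOM μ hμ (V Q) (Real.exp_pos _) Q k hQ3 hk
      simp only [hB, if_pos h]
      refine h1.trans (ENNReal.ofReal_le_ofReal ?_)
      rw [← mul_div_assoc, div_le_iff₀ (pow_pos (Real.exp_pos _) _)]
      exact hle
    · simp only [hB, if_neg h]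
      simp
  have hsum : ∑' Q, Measure.infinitePi μ (B Q) ≠ ⊤ := by
    refine ne_top_of_le_ne_top ?_ (ENNReal.tsum_le_tsum hBle)
    have hs : Summable fun Q : ℕ => 1 / (Q : ℝ) ^ 2 := Real.summable_one_div_nat_pow.2 (by norm_num)
    rw [← ENNReal.ofReal_tsum_of_nonneg (fun _ => by positivity) hs]
    exact ENNReal.ofReal_ne_top
  filter_upwards [ae_eventually_notMem hsum] with x hx
  filter_upwards [hx, Filter.eventually_ge_atTop Q1] with Q hxQ hQ q N χ j hq1 hqQ hN hj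
  by_contra hcon
  push Not at hcon
  apply hxQ
  simp only [hB, if_pos hQ]
  exact ⟨q, N, χ, j, hq1, hqQ, hN, hj, hcon⟩

end Pool.Agent.T2H95.LR
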