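import Pool.Agent.T2H95.LR.Stm

/-! # Package MOM -/

set_option autoImplicit false

open MeasureTheory Filter Topology Finset

namespace Pool.Agent.T2H95.LR

namespace MOM

lemma H_le {M : ℕ} (hM : 1 ≤ M) : H M ≤ 1 + Real.log M := by
  have h := harmonic_le_one_add_log M
  refine le_trans (le_of_eq ?_) h
  unfold H harmonic
  push_cast
  have h3 := Finset.sum_Ico_add' (fun n : ℕ => 1 / (n : ℝ)) 0 M 1
  have h4 : Ico (0 + 1) (M + 1) = Icc 1 M := by
    ext x; rw [Finset.mem_Ico, Finset.mem_Icc]; omega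
  rw [h4] at h3
  rw [← h3, ← Finset.range_eq_Ico]
  refine Finset.sum_congr rfl fun n _ => ?_
  push_cast
  rw [one_div]

end MOM

theorem pMOM (hEXP : S_EXP) (hCNT : S_CNT) : S_MOM := by
  intro μ hμ g hg k N hk hN
  obtain ⟨h1, h2⟩ := hEXP μ hμ g hg k N hk
  refine ⟨h1, h2.trans ((hCNT k N hk).trans ?_)⟩
  have hNk : 1 ≤ N ^ k := Nat.one_le_pow _ _ hN
  have h3 := MOM.H_le hNk
  have h4 : Real.log ((N ^ k : ℕ) : ℝ) = k * Real.log N := by
    push_cast
    rw [Real.log_pow]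
  rw [h4] at h3
  have h5 : 0 ≤ H (N ^ k) := Finset.sum_nonneg fun n _ => by positivity
  exact pow_le_pow_left₀ h5 h3 _

end Pool.Agent.T2H95.LR
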