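import Pool.Agent.T2H95.LR.Stm

set_option autoImplicit false

open MeasureTheory Filter Topology Finset

namespace Pool.Agent.T2H95.LR

namespace FIN

lemma one_lt_log3 : 1 < Real.log 3 := by
  rw [Real.lt_log_iff_exp_lt (by norm_num)]
  have := Real.exp_one_lt_d9
  linarith

lemma loglog3_pos : 0 < Real.log (Real.log 3) := Real.log_pos one_lt_log3

/-- lower bound -/
noncomputable def c0 : ℝ := Real.sqrt (Real.log 3 * Real.log (Real.log 3))

lemma c0_pos : 0 < c0 :=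
  Real.sqrt_pos.2 (mul_pos (by linarith [one_lt_log3]) loglog3_pos)

noncomputable def s (Q : ℝ) : ℝ := Real.sqrt (Real.log Q * Real.log (Real.log Q))

lemma log_ge {Q : ℝ} (hQ : 3 ≤ Q) : Real.log 3 ≤ Real.log Q :=
  Real.log_le_log (by norm_num) hQ

lemma loglog_ge {Q : ℝ} (hQ : 3 ≤ Q) : Real.log (Real.log 3) ≤ Real.log (Real.log Q) :=
  Real.log_le_log (by linarith [one_lt_log3]) (log_ge hQ)

lemma c0_le {Q : ℝ} (hQ : 3 ≤ Q) : c0 ≤ s Q := by
  unfold c0 s
  apply Real.sqrt_le_sqrt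
  have h1 := one_lt_log3
  have h2 := loglog3_pos
  exact mul_le_mul (log_ge hQ) (loglog_ge hQ) h2.le (by linarith [log_ge hQ])

noncomputable def C1 : ℝ := 1 + Real.log 2 / Real.log (Real.log 3)

lemma s_le {Q R : ℝ} (hQ : 3 ≤ Q) (hR : 3 ≤ R) (hRQ : R ≤ 2 * Q) : s R ≤ Real.sqrt (2 * C1) * s Q := by
  have h1 := one_lt_log3
  have h2 := loglog3_pos
  have h3 := log_ge hQ
  have h4 := loglog_ge hQ
  have hlog2 : 0 < Real.log 2 := Real.log_pos (by norm_num)
  have h5 : Real.log R ≤ 2 * Real.log Q := by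
    calc Real.log R ≤ Real.log (2 * Q) := Real.log_le_log (by linarith) hRQ
      _ = Real.log 2 + Real.log Q := Real.log_mul (by norm_num) (by linarith)
      _ ≤ 2 * Real.log Q := by
        have : Real.log 2 ≤ Real.log Q := Real.log_le_log (by norm_num) (by linarith)
        linarith
  have h6 : Real.log (Real.log R) ≤ C1 * Real.log (Real.log Q) := by
    calc Real.log (Real.log R) ≤ Real.log (2 * Real.log Q) :=
          Real.log_le_log (by linarith [log_ge hR]) h5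
      _ = Real.log 2 + Real.log (Real.log Q) := Real.log_mul (by norm_num) (by linarith)
      _ ≤ C1 * Real.log (Real.log Q) := by
        unfold C1
        have h7 : Real.log 2 ≤ Real.log 2 / Real.log (Real.log 3) * Real.log (Real.log Q) := by
          rw [div_mul_eq_mul_div, le_div_iff₀ h2]
          exact mul_le_mul_of_nonneg_left h4 hlog2.le
        linarith
  unfold s
  rw [← Real.sqrt_mul (by unfold C1; positivity)]
  apply Real.sqrt_le_sqrt
  have h8 : 0 ≤ Real.log (Real.log R) := by linarith [loglog_ge hR]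
  calc Real.log R * Real.log (Real.log R) ≤ (2 * Real.log Q) * (C1 * Real.log (Real.log Q)) :=
        mul_le_mul h5 h6 h8 (by linarith)
    _ = 2 * C1 * (Real.log Q * Real.log (Real.log Q)) := by ring

lemma pow_log (N : ℕ) : (N : ℝ) ^ (3 / 2 : ℝ) * Real.log N ≤ 2 * (N : ℝ) ^ 2 := by
  have hN : (0 : ℝ) ≤ N := Nat.cast_nonneg N
  have h1 : (N : ℝ) ^ (3 / 2 : ℝ) = N * Real.sqrt N := by
    rcases Nat.eq_zero_or_pos N with h | h
    · subst h
      simp
    · have hp : (0 : ℝ) < N := by exact_mod_cast h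
      rw [show (3 / 2 : ℝ) = 1 + 1 / 2 by norm_num, Real.rpow_add hp, Real.rpow_one, ← Real.sqrt_eq_rpow]
  have h2 : Real.log N ≤ 2 * Real.sqrt N := by
    rcases Nat.eq_zero_or_pos N with h | h
    · subst h
      simp
    · have hp : (0 : ℝ) < N := by exact_mod_cast h
      have h3 : Real.log (Real.sqrt N) ≤ Real.sqrt N - 1 :=
        Real.log_le_sub_one_of_pos (Real.sqrt_pos.2 hp)
      rw [Real.log_sqrt hp.le] at h3
      linarith
  rw [h1]
  calc (N : ℝ) * Real.sqrt N * Real.log N ≤ (N : ℝ) * Real.sqrt N * (2 * Real.sqrt N) :=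
        mul_le_mul_of_nonneg_left h2 (by positivity)
    _ = 2 * (N : ℝ) * (Real.sqrt N * Real.sqrt N) := by ring
    _ = 2 * (N : ℝ) ^ 2 := by rw [Real.mul_self_sqrt hN]; ring

end FIN

open FIN

theorem pFIN (hBC : S_BC) (hGRD : S_GRD) : S_FIN := by
  intro μ hμ
  have := hμ.prob
  have hb : ∀ᵐ x ∂(Measure.infinitePi μ), ∀ p, |x p| ≤ 2 := by
    rw [ae_all_iff]
    intro p
    have hmp := measurePreserving_eval_infinitePi μ p
    exact hmp.quasiMeasurePreserving.ae (hμ.bdd p)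
  filter_upwards [hBC μ hμ, hb] with x hx hx2
  obtain ⟨Q₀, hQ₀⟩ := eventually_atTop.1 hx
  have hc0 := c0_pos
  have hlogQ0 : 0 ≤ Real.log ((Q₀ : ℝ) ^ 2 + 1) := Real.log_nonneg (by nlinarith [sq_nonneg (Q₀ : ℝ)])
  set Ca : ℝ := Real.log ((Q₀ : ℝ) ^ 2 + 1) / c0 with hCa
  set Cb : ℝ := (101 + 1 / c0) * Real.sqrt (2 * C1) with hCb
  have hCa0 : 0 ≤ Ca := div_nonneg hlogQ0 hc0.le
  have hCb0 : 0 ≤ Cb := by positivity
  refine ⟨Ca + Cb, ?_⟩
  intro Q q N χ t hQ hq hqQ hNQ htQ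
  have hsQ : c0 ≤ s Q := c0_le hQ
  have hsQ0 : 0 ≤ s Q := hc0.le.trans hsQ
  change ‖S x χ N t‖ ≤ Real.exp ((Ca + Cb) * s Q)
  set R : ℕ := ⌈Q⌉₊ with hR
  have hQR : Q ≤ R := Nat.le_ceil Q
  have hR3 : (3 : ℝ) ≤ R := hQ.trans hQR
  have hRQ : (R : ℝ) ≤ 2 * Q := by
    have := (Nat.ceil_lt_add_one (by linarith : 0 ≤ Q)).le
    linarith
  rcases lt_or_ge R Q₀ with hlt | hge
  · have h1 := (hGRD x hx2 q N χ t t hq).2
    have h2 : (N : ℝ) ^ 2 ≤ (Q₀ : ℝ) ^ 2 := by
      apply pow_le_pow_left₀ (Nat.cast_nonneg N)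
      have : (R : ℝ) ≤ Q₀ := by exact_mod_cast hlt.le
      linarith
    have h3 : (Q₀ : ℝ) ^ 2 ≤ Real.exp (Ca * s Q) := by
      calc (Q₀ : ℝ) ^ 2 ≤ (Q₀ : ℝ) ^ 2 + 1 := by linarith
        _ = Real.exp (Real.log ((Q₀ : ℝ) ^ 2 + 1)) := (Real.exp_log (by positivity)).symm
        _ ≤ Real.exp (Ca * s Q) := by
          apply Real.exp_le_exp.2
          calc Real.log ((Q₀ : ℝ) ^ 2 + 1) = Ca * c0 := by rw [hCa]; field_simp
            _ ≤ Ca * s Q := mul_le_mul_of_nonneg_left hsQ hCa0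
    refine h1.trans (h2.trans (h3.trans ?_))
    apply Real.exp_le_exp.2
    exact mul_le_mul_of_nonneg_right (by linarith) hsQ0
  · have hR0 : (0 : ℝ) < R := by linarith
    set j : ℤ := round (t * (R : ℝ) ^ 2) with hj
    have hjabs : |j| ≤ (R : ℤ) ^ 3 := by
      have h1 : |t * (R : ℝ) ^ 2| ≤ (R : ℝ) ^ 3 := by
        rw [abs_mul, abs_of_nonneg (by positivity : (0 : ℝ) ≤ (R : ℝ) ^ 2)]
        have : |t| ≤ R := htQ.trans hQR
        calc |t| * (R : ℝ) ^ 2 ≤ R * (R : ℝ) ^ 2 := mul_le_mul_of_nonneg_right this (by positivity)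
          _ = (R : ℝ) ^ 3 := by ring
      obtain ⟨h2, h3⟩ := abs_le.1 h1
      have h4 := abs_sub_round (t * (R : ℝ) ^ 2)
      obtain ⟨h5, h6⟩ := abs_le.1 h4
      rw [← hj] at h5 h6
      rw [abs_le]
      constructor
      · have h7 : (-((R : ℤ) ^ 3) : ℝ) - 1 < (j : ℝ) := by push_cast; linarith
        have h8 : (-((R : ℤ) ^ 3) - 1 : ℤ) < j := by exact_mod_cast h7
        omega
      · have h7 : (j : ℝ) < ((R : ℤ) ^ 3 : ℝ) + 1 := by push_cast; linarith
        have h8 : j < (R : ℤ) ^ 3 + 1 := by exact_mod_cast h7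
        omega
    have hqR : q ≤ R := by
      have : (q : ℝ) ≤ R := hqQ.trans hQR
      exact_mod_cast this
    have hNR' : (N : ℝ) ≤ R := hNQ.trans hQR
    have hNR : N ≤ R := by exact_mod_cast hNR'
    have h1 := hQ₀ R hge q N χ j hq hqR hNR hjabs
    have h2 := (hGRD x hx2 q N χ t ((j : ℝ) / (R : ℝ) ^ 2) hq).1
    have h3 : |t - (j : ℝ) / (R : ℝ) ^ 2| ≤ 1 / (2 * (R : ℝ) ^ 2) := by
      have h4 := abs_sub_round (t * (R : ℝ) ^ 2)
      rw [← hj] at h4
      have h5 : t - (j : ℝ) / (R : ℝ) ^ 2 = (t * (R : ℝ) ^ 2 - j) / (R : ℝ) ^ 2 := by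
        field_simp
      rw [h5, abs_div, abs_of_nonneg (by positivity : (0 : ℝ) ≤ (R : ℝ) ^ 2), div_le_div_iff₀ (by positivity)
        (by positivity)]
      nlinarith [sq_nonneg (R : ℝ)]
    have h4 : (N : ℝ) ^ (3 / 2 : ℝ) * Real.log N * |t - (j : ℝ) / (R : ℝ) ^ 2| ≤ 1 := by
      calc (N : ℝ) ^ (3 / 2 : ℝ) * Real.log N * |t - (j : ℝ) / (R : ℝ) ^ 2|
          ≤ 2 * (N : ℝ) ^ 2 * (1 / (2 * (R : ℝ) ^ 2)) :=
            mul_le_mul (pow_log N) h3 (abs_nonneg _) (by positivity)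
        _ = (N : ℝ) ^ 2 / (R : ℝ) ^ 2 := by field_simp
        _ ≤ 1 := by
          rw [div_le_one (by positivity)]
          exact pow_le_pow_left₀ (Nat.cast_nonneg N) hNR' 2
    have h5 : ‖S x χ N t‖ ≤ Real.exp (101 * s R) + 1 := by
      have h6 : ‖S x χ N t‖ ≤ ‖S x χ N ((j : ℝ) / (R : ℝ) ^ 2)‖ +
          ‖S x χ N t - S x χ N ((j : ℝ) / (R : ℝ) ^ 2)‖ := by
        have := norm_add_le (S x χ N ((j : ℝ) / (R : ℝ) ^ 2)) (S x χ N t - S x χ N ((j : ℝ) / (R : ℝ) ^ 2))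
        simpa using this
      have h7 : ‖S x χ N ((j : ℝ) / (R : ℝ) ^ 2)‖ ≤ Real.exp (101 * s R) := h1
      linarith [h2.trans h4]
    have hsR : c0 ≤ s R := c0_le hR3
    have hsR0 : 0 ≤ s R := hc0.le.trans hsR
    have h6 : Real.exp (101 * s R) + 1 ≤ Real.exp ((101 + 1 / c0) * s R) := by
      have h7 : (1 : ℝ) ≤ Real.exp (101 * s R) := Real.one_le_exp (by positivity)
      have h8 : (2 : ℝ) ≤ Real.exp (1 / c0 * s R) := by
        have h9 : (1 : ℝ) ≤ 1 / c0 * s R := by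
          rw [one_div, inv_mul_eq_div, le_div_iff₀ hc0]
          linarith
        have h10 := Real.add_one_le_exp (1 / c0 * s R)
        linarith
      calc Real.exp (101 * s R) + 1 ≤ 2 * Real.exp (101 * s R) := by linarith
        _ ≤ Real.exp (1 / c0 * s R) * Real.exp (101 * s R) :=
          mul_le_mul_of_nonneg_right h8 (by positivity)
        _ = Real.exp ((101 + 1 / c0) * s R) := by
          rw [← Real.exp_add]
          congr 1
          ring
    refine h5.trans (h6.trans ?_)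
    apply Real.exp_le_exp.2
    calc (101 + 1 / c0) * s R ≤ (101 + 1 / c0) * (Real.sqrt (2 * C1) * s Q) :=
          mul_le_mul_of_nonneg_left (s_le hQ hR3 hRQ) (by positivity)
      _ = Cb * s Q := by rw [hCb]; ring
      _ ≤ (Ca + Cb) * s Q := mul_le_mul_of_nonneg_right (by linarith) hsQ0

end Pool.Agent.T2H95.LR
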