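import Pool.Agent.T2H95.LR.Stm

set_option autoImplicit false

open MeasureTheory Filter Topology Finset

namespace Pool.Agent.T2H95.LR

namespace GRD

theorem cp {n : ℕ} (hn : 1 ≤ n) (t : ℝ) :
    (n : ℂ) ^ (-(1 / 2 : ℂ) - t * Complex.I) =
      ((Real.exp (-(1 / 2) * Real.log n) : ℝ) : ℂ) * Complex.exp (Complex.I * ((-(t * Real.log n) : ℝ) : ℂ)) := by
  have hn0 : (n : ℂ) ≠ 0 := by exact_mod_cast (by omega : n ≠ 0)
  rw [Complex.cpow_def_of_ne_zero hn0, Complex.ofReal_exp, ← Complex.exp_add, ← Complex.natCast_log]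
  congr 1
  push_cast
  ring

theorem exph {n : ℕ} (hn : 1 ≤ n) : Real.exp (-(1 / 2) * Real.log n) = (Real.sqrt n)⁻¹ := by
  have hn0 : (0 : ℝ) < n := by exact_mod_cast hn
  rw [show -(1 / 2) * Real.log n = -(Real.log n / 2) by ring, Real.exp_neg, ← Real.log_sqrt hn0.le,
    Real.exp_log (Real.sqrt_pos.2 hn0)]

theorem norm_cp {n : ℕ} (hn : 1 ≤ n) (t : ℝ) :
    ‖(n : ℂ) ^ (-(1 / 2 : ℂ) - t * Complex.I)‖ = (Real.sqrt n)⁻¹ := by
  rw [cp hn, norm_mul, exph hn, Complex.norm_exp_I_mul_ofReal, mul_one, Complex.norm_real,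
    Real.norm_eq_abs, abs_of_nonneg (by positivity)]

theorem norm_sub {n : ℕ} (hn : 1 ≤ n) (t t' : ℝ) :
    ‖(n : ℂ) ^ (-(1 / 2 : ℂ) - t * Complex.I) - (n : ℂ) ^ (-(1 / 2 : ℂ) - t' * Complex.I)‖ ≤
      (Real.sqrt n)⁻¹ * (Real.log n * |t - t'|) := by
  rw [cp hn, cp hn, ← mul_sub, norm_mul, exph hn, Complex.norm_real, Real.norm_eq_abs,
    abs_of_nonneg (by positivity : (0 : ℝ) ≤ (Real.sqrt n)⁻¹)]
  apply mul_le_mul_of_nonneg_left _ (by positivity)
  have h1 : Complex.exp (Complex.I * ((-(t * Real.log n) : ℝ) : ℂ)) -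
      Complex.exp (Complex.I * ((-(t' * Real.log n) : ℝ) : ℂ)) =
      Complex.exp (Complex.I * ((-(t' * Real.log n) : ℝ) : ℂ)) *
        (Complex.exp (Complex.I * ((-((t - t') * Real.log n) : ℝ) : ℂ)) - 1) := by
    rw [mul_sub, mul_one, ← Complex.exp_add]
    congr 2
    push_cast
    ring
  rw [h1, norm_mul, Complex.norm_exp_I_mul_ofReal, one_mul]
  refine (Real.norm_exp_I_mul_ofReal_sub_one_le).trans ?_
  rw [Real.norm_eq_abs, abs_neg, abs_mul, mul_comm,
    abs_of_nonneg (Real.log_nonneg (by exact_mod_cast hn))]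

end GRD

open GRD in
theorem pGRD (hLAM : S_LAM) : S_GRD := by
  intro x hx q N χ t t' hq
  have hlam : ∀ n ∈ Icc 1 N, ‖(lam x n : ℂ)‖ ≤ n := by
    intro n hn
    rw [mem_Icc] at hn
    rw [Complex.norm_real, Real.norm_eq_abs]
    refine (hLAM.1 x n hx hn.1).trans ?_
    exact_mod_cast Nat.card_divisors_le_self n
  have hsn : ∀ n : ℕ, 1 ≤ n → (n : ℝ) * (Real.sqrt n)⁻¹ = Real.sqrt n := by
    intro n hn
    have hn0 : (0 : ℝ) < n := by exact_mod_cast hn
    have h1 : Real.sqrt n ≠ 0 := (Real.sqrt_pos.2 hn0).ne'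
    field_simp
    exact (Real.sq_sqrt hn0.le).symm
  constructor
  · unfold S
    rw [← sum_sub_distrib]
    calc ‖∑ n ∈ Icc 1 N, ((lam x n : ℂ) * χ n * (n : ℂ) ^ (-(1 / 2 : ℂ) - t * Complex.I) -
          (lam x n : ℂ) * χ n * (n : ℂ) ^ (-(1 / 2 : ℂ) - t' * Complex.I))‖
        ≤ ∑ n ∈ Icc 1 N, ‖((lam x n : ℂ) * χ n * (n : ℂ) ^ (-(1 / 2 : ℂ) - t * Complex.I) -
          (lam x n : ℂ) * χ n * (n : ℂ) ^ (-(1 / 2 : ℂ) - t' * Complex.I))‖ := norm_sum_le _ _
      _ ≤ ∑ n ∈ Icc 1 N, Real.sqrt N * (Real.log N * |t - t'|) := by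
        apply sum_le_sum
        intro n hn
        have hl := hlam n hn
        rw [mem_Icc] at hn
        have hn0 : (0 : ℝ) < n := by exact_mod_cast hn.1
        have hnN : (n : ℝ) ≤ N := by exact_mod_cast hn.2
        rw [← mul_sub, norm_mul, norm_mul]
        calc ‖(lam x n : ℂ)‖ * ‖χ n‖ * ‖(n : ℂ) ^ (-(1 / 2 : ℂ) - t * Complex.I) -
              (n : ℂ) ^ (-(1 / 2 : ℂ) - t' * Complex.I)‖
            ≤ n * 1 * ((Real.sqrt n)⁻¹ * (Real.log n * |t - t'|)) := by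
              gcongr
              · exact DirichletCharacter.norm_le_one χ _
              · exact norm_sub hn.1 t t'
          _ = Real.sqrt n * (Real.log n * |t - t'|) := by
              rw [mul_one, ← mul_assoc, hsn n hn.1]
          _ ≤ Real.sqrt N * (Real.log N * |t - t'|) := by
              gcongr
      _ = (N : ℝ) ^ (3 / 2 : ℝ) * Real.log N * |t - t'| := by
        rw [sum_const, Nat.card_Icc, nsmul_eq_mul, Nat.add_sub_cancel]
        rcases Nat.eq_zero_or_pos N with h0 | h0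
        · subst h0
          simp
        · have hN0 : (0 : ℝ) < N := by exact_mod_cast h0
          rw [show (3 / 2 : ℝ) = 1 + 1 / 2 by norm_num, Real.rpow_add hN0, Real.rpow_one,
            ← Real.sqrt_eq_rpow]
          ring
  · unfold S
    calc ‖∑ n ∈ Icc 1 N, (lam x n : ℂ) * χ n * (n : ℂ) ^ (-(1 / 2 : ℂ) - t * Complex.I)‖
        ≤ ∑ n ∈ Icc 1 N, ‖(lam x n : ℂ) * χ n * (n : ℂ) ^ (-(1 / 2 : ℂ) - t * Complex.I)‖ :=
          norm_sum_le _ _
      _ ≤ ∑ n ∈ Icc 1 N, (N : ℝ) := by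
        apply sum_le_sum
        intro n hn
        have hl := hlam n hn
        rw [mem_Icc] at hn
        have hn1 : (1 : ℝ) ≤ n := by exact_mod_cast hn.1
        have hnN : (n : ℝ) ≤ N := by exact_mod_cast hn.2
        rw [norm_mul, norm_mul]
        calc ‖(lam x n : ℂ)‖ * ‖χ n‖ * ‖(n : ℂ) ^ (-(1 / 2 : ℂ) - t * Complex.I)‖
            ≤ n * 1 * (Real.sqrt n)⁻¹ := by
              gcongr
              · exact DirichletCharacter.norm_le_one χ _
              · exact (norm_cp hn.1 t).le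
          _ = Real.sqrt n := by rw [mul_one, hsn n hn.1]
          _ ≤ n := by
              rw [Real.sqrt_le_left (by linarith)]
              nlinarith
          _ ≤ N := hnN
      _ = (N : ℝ) ^ 2 := by
        rw [sum_const, Nat.card_Icc, nsmul_eq_mul, Nat.add_sub_cancel]
        ring

end Pool.Agent.T2H95.LR
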