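import Pool.Agent.T2H95.LR.Low

set_option autoImplicit false

open MeasureTheory Filter Topology Finset

namespace Pool.Agent.T2H95.LR

namespace ASM

lemma exp_le {u : ℝ} (h0 : 0 ≤ u) (h1 : u ≤ 1) : Real.exp (u / 2) ≤ 1 + u := by
  have hpos : 0 < 1 + u := by linarith
  rw [← Real.le_log_iff_exp_le hpos]
  have h := Real.one_sub_inv_le_log_of_pos hpos
  have h2 : u / 2 ≤ 1 - (1 + u)⁻¹ := by
    have : 1 - (1 + u)⁻¹ = u / (1 + u) := by field_simp; ring
    rw [this, div_le_div_iff₀ (by norm_num) hpos]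
    nlinarith
  linarith

/-- the Euler product is large -/
lemma prod_ge (x : ℕ → ℝ) (hx : ∀ p, |x p| ≤ 2) (y : ℕ) :
    Real.exp ((∑ p ∈ (range (y + 1)).filter Nat.Prime, |x p|) / (4 * Real.sqrt y)) ≤
      ∏ p ∈ (range (y + 1)).filter Nat.Prime, (1 + |x p| / (2 * Real.sqrt p)) := by
  rw [Finset.sum_div, Real.exp_sum]
  refine Finset.prod_le_prod (fun _ _ => (Real.exp_pos _).le) fun p hp => ?_
  obtain ⟨hpr, hpp⟩ := Finset.mem_filter.1 hp
  have hpy : p ≤ y := by have := Finset.mem_range.1 hpr; omega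
  have hp2 : 2 ≤ p := hpp.two_le
  have hp0 : (0 : ℝ) < p := by exact_mod_cast (by omega : 0 < p)
  have hsp : 1 ≤ Real.sqrt p := by
    rw [Real.one_le_sqrt]
    exact_mod_cast (by omega : 1 ≤ p)
  have hsy : Real.sqrt p ≤ Real.sqrt y := Real.sqrt_le_sqrt (by exact_mod_cast hpy)
  have hsp0 : 0 < Real.sqrt p := by linarith
  have hsy0 : 0 < Real.sqrt y := by linarith
  have hxp := abs_nonneg (x p)
  have h1 : |x p| / (2 * Real.sqrt p) ≤ 1 := by
    rw [div_le_one (by positivity)]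
    have := hx p
    linarith
  have h2 := exp_le (u := |x p| / (2 * Real.sqrt p)) (by positivity) h1
  refine le_trans (Real.exp_le_exp.2 ?_) h2
  rw [div_div]
  have : 2 * Real.sqrt p * 2 ≤ 4 * Real.sqrt y := by linarith
  exact div_le_div_of_nonneg_left hxp (by positivity) this

lemma S_eq (x : ℕ → ℝ) {q : ℕ} (χ : DirichletCharacter ℂ q) (N : ℕ) :
    S x χ N 0 = ∑ n ∈ Icc 1 N, ((lam x n / Real.sqrt n : ℝ) : ℂ) * χ n := by
  unfold S
  refine Finset.sum_congr rfl fun n hn => ?_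
  have hn1 : 1 ≤ n := (Finset.mem_Icc.1 hn).1
  have h2 : ((n : ℝ) ^ (-(1 / 2 : ℝ)) : ℝ) = 1 / Real.sqrt n := by
    rw [Real.rpow_neg (by positivity), Real.sqrt_eq_rpow]
    simp only [one_div]
  have h3 : (n : ℂ) ^ (-(1 / 2 : ℂ) - (0 : ℝ) * Complex.I) = ((1 / Real.sqrt n : ℝ) : ℂ) := by
    rw [← h2, Complex.ofReal_cpow (by positivity)]
    push_cast
    congr 1
    ring
  rw [h3]
  push_cast
  ring

lemma det (hORTH : S_ORTH) (hFACT : S_FACT) (x : ℕ → ℝ) (y q : ℕ) (hq : q.Prime)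
    (h : primorial y * primorial y < q) :
    ∃ χ : DirichletCharacter ℂ q,
      ∏ p ∈ (range (y + 1)).filter Nat.Prime, (1 + |x p| / (2 * Real.sqrt p)) ≤ ‖S x χ (primorial y) 0‖ := by
  have : Fact q.Prime := ⟨hq⟩
  have hP : 1 ≤ primorial y := primorial_pos y
  have hPq : primorial y < q := by nlinarith
  obtain ⟨r, hr0, hr⟩ := hFACT x y
  obtain ⟨χ, hχ⟩ := Finite.exists_max (fun χ : DirichletCharacter ℂ q => ‖S x χ (primorial y) 0‖)
  refine ⟨χ, ?_⟩
  have h1 := hORTH q (primorial y) (primorial y) (fun n => lam x n / Real.sqrt n) r ‖S x χ (primorial y) 0‖ h hPq hPq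
    (fun ψ => by
      have := hχ ψ
      rwa [S_eq x ψ] at this)
  exact le_of_mul_le_mul_right (hr.trans h1) hr0

lemma tendsto_y : Tendsto (fun Q : ℕ => ⌊Real.log Q / 6⌋₊) atTop atTop :=
  tendsto_nat_floor_atTop.comp
    ((Real.tendsto_log_atTop.comp tendsto_natCast_atTop_atTop).atTop_div_const (by norm_num))

end ASM

theorem pLOW (hORTH : S_ORTH) (hFACT : S_FACT) (hLLN : S_LLN) (hPI : S_PI) : S_LOW := by
  intro μ₀ _ hb hv
  obtain ⟨c1, hc1, hae⟩ := hLLN μ₀ hb hv
  obtain ⟨c2, hc2, hpi⟩ := hPI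
  refine ⟨c1 * c2 / 12, by positivity, ?_⟩
  have hball : ∀ᵐ x ∂(Measure.infinitePi fun _ : ℕ => μ₀), ∀ p, |x p| ≤ 2 := by
    rw [ae_all_iff]
    intro p
    exact (measurePreserving_eval_infinitePi (fun _ : ℕ => μ₀) p).quasiMeasurePreserving.ae hb
  filter_upwards [hae, hball] with x hx1 hx2
  have hlogtop : Tendsto (fun Q : ℕ => Real.log (Q : ℝ)) atTop atTop :=
    Real.tendsto_log_atTop.comp tendsto_natCast_atTop_atTop
  filter_upwards [ASM.tendsto_y.eventually hx1, ASM.tendsto_y.eventually hpi, ASM.tendsto_y.eventually_ge_atTop 3,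
    hlogtop.eventually_ge_atTop 42, eventually_ge_atTop 3] with Q h1 h2 h3 h4 h5
  set y : ℕ := ⌊Real.log Q / 6⌋₊ with hy
  set L : ℝ := Real.log Q with hL
  have hQ0 : (0 : ℝ) < Q := by exact_mod_cast (by omega : 0 < Q)
  have hyL : (y : ℝ) ≤ L / 6 := Nat.floor_le (by linarith)
  have hyL2 : L / 7 ≤ (y : ℝ) := by
    have : L / 6 < y + 1 := Nat.lt_floor_add_one _
    linarith
  have hy3 : (3 : ℝ) ≤ y := by exact_mod_cast h3
  -- the prime q
  have hK : 16 ^ y * 16 ^ y ≤ Q := by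
    have e1 : (((16 ^ y * 16 ^ y : ℕ)) : ℝ) ≤ (Q : ℝ) := by
      push_cast
      have e2 : (16 : ℝ) ^ y * 16 ^ y = Real.exp (y * Real.log 256) := by
        rw [← mul_pow, mul_comm (y : ℝ), Real.exp_mul, Real.exp_log (by norm_num), Real.rpow_natCast]
        norm_num
      have e3 : Real.log 256 ≤ 6 := by
        have : (256 : ℝ) = 2 ^ (8 : ℕ) := by norm_num
        rw [this, Real.log_pow]
        have := Real.log_two_lt_d9
        push_cast
        linarith
      rw [e2]
      calc Real.exp (y * Real.log 256) ≤ Real.exp L := by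
            refine Real.exp_le_exp.2 ?_
            have : (y : ℝ) * Real.log 256 ≤ y * 6 := by gcongr
            linarith
        _ = Q := Real.exp_log hQ0
    exact_mod_cast e1
  have hK2 : 16 ≤ 16 ^ y := by
    calc 16 = 16 ^ 1 := by norm_num
      _ ≤ 16 ^ y := Nat.pow_le_pow_right (by norm_num) (by omega)
  have hK3 : 16 ^ y ≤ Q / 2 := by
    rw [Nat.le_div_iff_mul_le (by norm_num)]
    nlinarith
  obtain ⟨q, hqp, hq1, hq2⟩ := Nat.exists_prime_lt_and_le_two_mul (Q / 2) (by omega)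
  have hqQ : q ≤ Q := by omega
  have hPP : primorial y * primorial y < q := by
    have h6 := primorial_le_four_pow y
    calc primorial y * primorial y ≤ 4 ^ y * 4 ^ y := Nat.mul_le_mul h6 h6
      _ = 16 ^ y := by rw [← mul_pow]; norm_num
      _ ≤ Q / 2 := hK3
      _ < q := hq1
  obtain ⟨χ, hχ⟩ := ASM.det hORTH hFACT x y q hqp hPP
  have hPQ : primorial y ≤ Q := by
    have hP : 1 ≤ primorial y := primorial_pos y
    nlinarith
  refine ⟨q, primorial y, χ, hqp, hqQ, hPQ, le_trans ?_ hχ⟩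
  refine le_trans (Real.exp_le_exp.2 ?_) (ASM.prod_ge x hx2 y)
  have hsy : 0 < Real.sqrt y := Real.sqrt_pos.2 (by linarith)
  have hlogy : 0 < Real.log y := Real.log_pos (by linarith)
  have hlogy2 : Real.log y ≤ Real.log L := Real.log_le_log (by linarith) (by linarith)
  have hlogL : 0 < Real.log L := by linarith
  have hsum : c1 * (c2 * y / Real.log y) ≤ ∑ p ∈ (range (y + 1)).filter Nat.Prime, |x p| :=
    le_trans (mul_le_mul_of_nonneg_left h2 hc1.le) h1
  calc c1 * c2 / 12 * Real.sqrt L / Real.log L ≤ c1 * c2 / 4 * Real.sqrt y / Real.log y := by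
        have hsL : Real.sqrt L ≤ 3 * Real.sqrt y := by
          rw [show (3 : ℝ) = Real.sqrt 9 by rw [show (9 : ℝ) = 3 ^ 2 by norm_num]; exact (Real.sqrt_sq (by norm_num)).symm,
            ← Real.sqrt_mul (by norm_num)]
          exact Real.sqrt_le_sqrt (by linarith)
        have h7 : c1 * c2 / 12 * Real.sqrt L ≤ c1 * c2 / 4 * Real.sqrt y := by
          have : c1 * c2 / 12 * Real.sqrt L ≤ c1 * c2 / 12 * (3 * Real.sqrt y) := by gcongr
          linarith
        have h8 : 0 ≤ c1 * c2 / 4 * Real.sqrt y := by positivity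
        exact div_le_div₀ h8 h7 hlogy hlogy2
    _ = c1 * (c2 * y / Real.log y) / (4 * Real.sqrt y) := by
        have : (y : ℝ) = Real.sqrt y * Real.sqrt y := (Real.mul_self_sqrt (by linarith)).symm
        rw [eq_div_iff (by positivity)]
        rw [show c1 * (c2 * (y : ℝ) / Real.log y) = c1 * (c2 * (Real.sqrt y * Real.sqrt y) / Real.log y) by rw [← this]]
        ring
    _ ≤ (∑ p ∈ (range (y + 1)).filter Nat.Prime, |x p|) / (4 * Real.sqrt y) := by
        gcongr

end Pool.Agent.T2H95.LR
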