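import Pool.Agent.T2H95.LR.Low

set_option autoImplicit false

open MeasureTheory Filter Topology Finset

namespace Pool.Agent.T2H95.LR

namespace FACT

/-- the primes up to `y` -/
def PP (y : ℕ) : Finset ℕ := (range (y + 1)).filter Nat.Prime

/-- the product -/
def D (T : Finset ℕ) : ℕ := ∏ p ∈ T, p

noncomputable def sg (v : ℝ) : ℝ := if 0 ≤ v then 1 else -1

theorem sg_sq (v : ℝ) : sg v * sg v = 1 := by
  unfold sg
  split_ifs <;> norm_num

theorem sg_mul (v : ℝ) : sg v * v = |v| := by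
  unfold sg
  split_ifs with h
  · rw [one_mul, abs_of_nonneg h]
  · rw [abs_of_neg (not_le.1 h)]
    ring

theorem prim_eq (y : ℕ) : primorial y = D (PP y) := rfl

theorem prime_of_mem {y p : ℕ} (h : p ∈ PP y) : p.Prime := (mem_filter.1 h).2

theorem pf_D {y : ℕ} {T : Finset ℕ} (hT : T ⊆ PP y) : (D T).primeFactors = T :=
  Nat.primeFactors_prod fun _ hp => prime_of_mem (hT hp)

theorem D_pos {y : ℕ} {T : Finset ℕ} (hT : T ⊆ PP y) : 0 < D T :=
  Finset.prod_pos fun _ hp => (prime_of_mem (hT hp)).pos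

theorem D_dvd {y : ℕ} {T : Finset ℕ} (hT : T ⊆ PP y) : D T ∣ primorial y :=
  Finset.prod_dvd_prod_of_subset _ _ _ hT

theorem sqf (y : ℕ) : Squarefree (primorial y) := by
  rw [prim_eq]
  unfold D
  refine Finset.squarefree_prod_of_pairwise_isCoprime ?_ ?_
  · intro p hp q hq hpq
    have hp' := prime_of_mem (mem_coe.1 hp)
    have hq' := prime_of_mem (mem_coe.1 hq)
    exact Nat.isCoprime_iff_coprime.2 ((Nat.coprime_primes hp' hq').2 hpq) |> fun h => by
      rw [Function.onFun]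
      exact Nat.coprime_iff_isRelPrime.1 ((Nat.coprime_primes hp' hq').2 hpq)
  · intro p hp
    exact (prime_of_mem hp).squarefree

theorem eq_D {y n : ℕ} (hn : n ∣ primorial y) : n = D n.primeFactors :=
  (Nat.prod_primeFactors_of_squarefree ((sqf y).squarefree_of_dvd hn)).symm

theorem prim_pos (y : ℕ) : 0 < primorial y := primorial_pos y

theorem pf_sub {y n : ℕ} (hn : n ∣ primorial y) : n.primeFactors ⊆ PP y := by
  have h1 := Nat.primeFactors_mono hn (prim_pos y).ne'
  rwa [prim_eq, pf_D (Finset.Subset.refl _)] at h1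

noncomputable def r (x : ℕ → ℝ) (y m : ℕ) : ℝ :=
  if m ∣ primorial y then ∏ p ∈ m.primeFactors, sg (x p) else 0

theorem r_D (x : ℕ → ℝ) {y : ℕ} {T : Finset ℕ} (hT : T ⊆ PP y) :
    r x y (D T) = ∏ p ∈ T, sg (x p) := by
  unfold r
  rw [if_pos (D_dvd hT), pf_D hT]

theorem lam_D (x : ℕ → ℝ) {y : ℕ} {T : Finset ℕ} (hT : T ⊆ PP y) :
    lam x (D T) = ∏ p ∈ T, x p := by
  unfold lam
  rw [pf_D hT]
  refine Finset.prod_congr rfl fun p hp => ?_
  have h1 : (D T).factorization p ≤ 1 :=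
    ((sqf y).squarefree_of_dvd (D_dvd hT)).natFactorization_le_one p
  have h2 : (D T).factorization p ≠ 0 := by
    have h3 : p ∈ (D T).primeFactors := by rwa [pf_D hT]
    rw [← Nat.support_factorization, Finsupp.mem_support_iff] at h3
    exact h3
  have h4 : (D T).factorization p = 1 := by omega
  rw [h4]
  rfl

theorem sqrt_D (T : Finset ℕ) : Real.sqrt (D T : ℕ) = ∏ p ∈ T, Real.sqrt p := by
  unfold D
  push_cast
  exact Real.sqrt_prod _ fun i _ => Nat.cast_nonneg i

/-- the terms of the double sum -/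
noncomputable def t (x : ℕ → ℝ) (y n m : ℕ) : ℝ :=
  if n * m ≤ primorial y then (lam x n / Real.sqrt n) * r x y m * r x y (n * m) else 0

theorem t_D (x : ℕ → ℝ) {y : ℕ} {A B : Finset ℕ} (hA : A ⊆ PP y) (hB : B ⊆ PP y)
    (hAB : Disjoint A B) : t x y (D A) (D B) = ∏ p ∈ A, (|x p| / Real.sqrt p) := by
  have hu : A ∪ B ⊆ PP y := Finset.union_subset hA hB
  have h1 : D A * D B = D (A ∪ B) := (Finset.prod_union hAB).symm
  unfold t
  rw [h1, if_pos (Nat.le_of_dvd (prim_pos y) (D_dvd hu)), lam_D x hA, sqrt_D, r_D x hB, r_D x hu,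
    Finset.prod_union hAB, ← Finset.prod_div_distrib]
  have h2 : (∏ p ∈ B, sg (x p)) * (∏ p ∈ B, sg (x p)) = 1 := by
    rw [← Finset.prod_mul_distrib]
    exact Finset.prod_eq_one fun p _ => sg_sq (x p)
  calc (∏ p ∈ A, x p / Real.sqrt p) * (∏ p ∈ B, sg (x p)) *
        ((∏ p ∈ A, sg (x p)) * ∏ p ∈ B, sg (x p))
      = ((∏ p ∈ A, x p / Real.sqrt p) * ∏ p ∈ A, sg (x p)) *
        ((∏ p ∈ B, sg (x p)) * ∏ p ∈ B, sg (x p)) := by ring
    _ = ∏ p ∈ A, (|x p| / Real.sqrt p) := by
        rw [h2, mul_one, ← Finset.prod_mul_distrib]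
        refine Finset.prod_congr rfl fun p _ => ?_
        rw [← sg_mul]
        ring

theorem t_nonneg (x : ℕ → ℝ) (y n m : ℕ) : 0 ≤ t x y n m := by
  by_cases h : n * m ∣ primorial y
  · have hn : n ∣ primorial y := (Dvd.intro _ rfl).trans h
    have hm : m ∣ primorial y := (Dvd.intro_left _ rfl).trans h
    have hco : n.Coprime m := Nat.coprime_of_squarefree_mul ((sqf y).squarefree_of_dvd h)
    rw [eq_D hn, eq_D hm, t_D x (pf_sub hn) (pf_sub hm) hco.disjoint_primeFactors]
    exact Finset.prod_nonneg fun p _ => by positivity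
  · unfold t
    split_ifs
    · have h1 : r x y (n * m) = 0 := by
        unfold r
        rw [if_neg h]
      rw [h1, mul_zero]
    · exact le_rfl

/-- sums over subsets are at most sums over all numbers -/
theorem sum_sub {y : ℕ} (s : Finset (Finset ℕ)) (hs : ∀ T ∈ s, T ⊆ PP y) (f : ℕ → ℝ)
    (hf : ∀ n, 0 ≤ f n) : ∑ T ∈ s, f (D T) ≤ ∑ n ∈ Icc 1 (primorial y), f n := by
  have hinj : Set.InjOn D (s : Set (Finset ℕ)) := by
    intro T hT T' hT' h
    rw [← pf_D (hs T (mem_coe.1 hT)), h, pf_D (hs T' (mem_coe.1 hT'))]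
  rw [← Finset.sum_image hinj]
  refine Finset.sum_le_sum_of_subset_of_nonneg ?_ fun n _ _ => hf n
  intro n hn
  obtain ⟨T, hT, rfl⟩ := Finset.mem_image.1 hn
  rw [mem_Icc]
  exact ⟨D_pos (hs T hT), Nat.le_of_dvd (prim_pos y) (D_dvd (hs T hT))⟩

theorem r_sq (x : ℕ → ℝ) (y m : ℕ) : r x y m ^ 2 = if m ∣ primorial y then 1 else 0 := by
  unfold r
  split_ifs
  · rw [sq, ← Finset.prod_mul_distrib]
    exact Finset.prod_eq_one fun p _ => sg_sq (x p)
  · norm_num

theorem sum_r_le (x : ℕ → ℝ) (y : ℕ) :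
    ∑ m ∈ Icc 1 (primorial y), r x y m ^ 2 ≤ 2 ^ (PP y).card := by
  have h1 : ∑ m ∈ Icc 1 (primorial y), r x y m ^ 2 =
      (((Icc 1 (primorial y)).filter fun m => m ∣ primorial y).card : ℝ) := by
    rw [Finset.card_filter]
    push_cast
    exact Finset.sum_congr rfl fun m _ => r_sq x y m
  rw [h1]
  have h2 : ((Icc 1 (primorial y)).filter fun m => m ∣ primorial y).card ≤
      (PP y).powerset.card := by
    refine Finset.card_le_card_of_injOn Nat.primeFactors ?_ ?_
    · intro m hm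
      have hm' := (mem_filter.1 (mem_coe.1 hm)).2
      exact mem_coe.2 (mem_powerset.2 (pf_sub hm'))
    · intro m hm m' hm' h
      have h3 := (mem_filter.1 (mem_coe.1 hm)).2
      have h4 := (mem_filter.1 (mem_coe.1 hm')).2
      rw [eq_D h3, eq_D h4, h]
  rw [Finset.card_powerset] at h2
  exact_mod_cast h2

end FACT

open FACT in
theorem pFACT : S_FACT := by
  intro x y
  refine ⟨r x y, ?_, ?_⟩
  · have h1 : (1 : ℕ) ∈ Icc 1 (primorial y) := by
      rw [mem_Icc]
      exact ⟨le_rfl, prim_pos y⟩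
    have h2 : r x y 1 ^ 2 = 1 := by
      rw [r_sq, if_pos (one_dvd _)]
    calc (0 : ℝ) < r x y 1 ^ 2 := by rw [h2]; exact one_pos
      _ ≤ _ := Finset.single_le_sum (f := fun m => r x y m ^ 2) (fun m _ => sq_nonneg _) h1
  · have hprod : 0 ≤ ∏ p ∈ PP y, (1 + |x p| / (2 * Real.sqrt p)) :=
      Finset.prod_nonneg fun p _ => by positivity
    show (∏ p ∈ PP y, (1 + |x p| / (2 * Real.sqrt p))) * _ ≤
      ∑ n ∈ Icc 1 (primorial y), ∑ m ∈ Icc 1 (primorial y), t x y n m
    calc (∏ p ∈ PP y, (1 + |x p| / (2 * Real.sqrt p))) * ∑ m ∈ Icc 1 (primorial y), r x y m ^ 2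
        ≤ (∏ p ∈ PP y, (1 + |x p| / (2 * Real.sqrt p))) * 2 ^ (PP y).card :=
          mul_le_mul_of_nonneg_left (sum_r_le x y) hprod
      _ = ∏ p ∈ PP y, (|x p| / Real.sqrt p + 2) := by
          rw [← Finset.prod_const, ← Finset.prod_mul_distrib]
          refine Finset.prod_congr rfl fun p hp => ?_
          have h1 : 0 < Real.sqrt p := Real.sqrt_pos.2 (by
            exact_mod_cast (prime_of_mem hp).pos)
          field_simp
          ring
      _ = ∑ A ∈ (PP y).powerset, (∏ p ∈ A, (|x p| / Real.sqrt p)) * ∏ _p ∈ PP y \ A, (2 : ℝ) :=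
          Finset.prod_add _ _ _
      _ = ∑ A ∈ (PP y).powerset, ∑ B ∈ (PP y \ A).powerset, t x y (D A) (D B) := by
          refine Finset.sum_congr rfl fun A hA => ?_
          rw [mem_powerset] at hA
          have h1 : ∑ B ∈ (PP y \ A).powerset, t x y (D A) (D B) =
              ∑ _B ∈ (PP y \ A).powerset, ∏ p ∈ A, (|x p| / Real.sqrt p) := by
            refine Finset.sum_congr rfl fun B hB => ?_
            rw [mem_powerset] at hB
            exact t_D x hA (hB.trans Finset.sdiff_subset)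
              (Finset.disjoint_of_subset_right hB Finset.disjoint_sdiff)
          rw [h1, Finset.sum_const, Finset.card_powerset, Finset.prod_const, nsmul_eq_mul]
          push_cast
          ring
      _ ≤ ∑ A ∈ (PP y).powerset, ∑ m ∈ Icc 1 (primorial y), t x y (D A) m := by
          refine Finset.sum_le_sum fun A _ => ?_
          exact sum_sub _ (fun B hB => (mem_powerset.1 hB).trans Finset.sdiff_subset) _
            fun m => t_nonneg x y _ m
      _ ≤ ∑ n ∈ Icc 1 (primorial y), ∑ m ∈ Icc 1 (primorial y), t x y n m :=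
          sum_sub _ (fun A hA => mem_powerset.1 hA)
            (fun n => ∑ m ∈ Icc 1 (primorial y), t x y n m)
            fun n => Finset.sum_nonneg fun m _ => t_nonneg x y n m

end Pool.Agent.T2H95.LR
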