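import Pool.Agent.T2H95.LR.Low

set_option autoImplicit false

open MeasureTheory Filter Topology Finset

namespace Pool.Agent.T2H95.LR

namespace LLN

/-- reindexing the primes up to `y` -/
theorem sum_primes (f : ℕ → ℝ) (y : ℕ) :
    ∑ i ∈ range (Nat.primeCounting y), f (Nat.nth Nat.Prime i) =
      ∑ p ∈ (range (y + 1)).filter Nat.Prime, f p := by
  refine Finset.sum_bij (fun i _ => Nat.nth Nat.Prime i) ?_ ?_ ?_ ?_
  · intro i hi
    rw [mem_range] at hi
    rw [mem_filter, mem_range]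
    exact ⟨Nat.nth_lt_of_lt_count hi, Nat.prime_nth_prime i⟩
  · intro i _ j _ h
    exact Nat.nth_injective Nat.infinite_setOfPred_prime h
  · intro p hp
    rw [mem_filter, mem_range] at hp
    refine ⟨Nat.count Nat.Prime p, ?_, Nat.nth_count hp.2⟩
    rw [mem_range]
    exact Nat.count_strict_mono hp.2 hp.1
  · intro i _
    rfl

end LLN

open LLN ProbabilityTheory in
theorem pLLN : S_LLN := by
  intro μ₀ _ hb hpos
  set P : Measure (ℕ → ℝ) := Measure.infinitePi fun _ : ℕ => μ₀ with hP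
  set m₂ : ℝ := ∫ x, x ^ 2 ∂μ₀ with hm₂
  have hmp : ∀ i : ℕ, MeasurePreserving (fun x : ℕ → ℝ => x i) P μ₀ := fun i =>
    measurePreserving_eval_infinitePi (fun _ : ℕ => μ₀) i
  have hall : ∀ᵐ x ∂P, ∀ p : ℕ, |x p| ≤ 2 := by
    rw [ae_all_iff]
    intro p
    exact (hmp p).quasiMeasurePreserving.ae hb
  set X : ℕ → (ℕ → ℝ) → ℝ := fun i x => x (Nat.nth Nat.Prime i) ^ 2 with hX
  have hsq : Integrable (fun t : ℝ => t ^ 2) μ₀ := by
    refine Integrable.of_bound (by fun_prop) 4 ?_
    filter_upwards [hb] with t ht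
    rw [Real.norm_eq_abs, abs_of_nonneg (sq_nonneg t), ← sq_abs]
    nlinarith [abs_nonneg t]
  have hint : Integrable (X 0) P := (hmp _).integrable_comp_of_integrable hsq
  have hind : iIndepFun (fun (i : ℕ) (x : ℕ → ℝ) => x i ^ 2) P :=
    iIndepFun_infinitePi (P := fun _ : ℕ => μ₀) (X := fun _ t => t ^ 2) (fun _ => by fun_prop)
  have hindep : Pairwise (Function.onFun (fun f g => IndepFun f g P) X) := by
    intro i j hij
    exact hind.indepFun fun h => hij (Nat.nth_injective Nat.infinite_setOfPred_prime h)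
  have hident : ∀ i, IdentDistrib (X i) (X 0) P P := by
    intro i
    have h1 : IdentDistrib (fun x : ℕ → ℝ => x (Nat.nth Nat.Prime i))
        (fun x : ℕ → ℝ => x (Nat.nth Nat.Prime 0)) P P :=
      ⟨(hmp _).measurable.aemeasurable, (hmp _).measurable.aemeasurable, by
        rw [(hmp _).map_eq, (hmp _).map_eq]⟩
    exact h1.comp (u := fun t : ℝ => t ^ 2) (by fun_prop)
  have hmean : ∫ x, X 0 x ∂P = m₂ := by
    have h1 := (hmp (Nat.nth Nat.Prime 0)).map_eq
    rw [hm₂, ← h1, integral_map (hmp _).measurable.aemeasurable (by fun_prop)]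
  have hlim := strong_law_ae_real X hint hindep hident
  rw [hmean] at hlim
  refine ⟨m₂ / 4, by positivity, ?_⟩
  filter_upwards [hlim, hall] with x hx hx2
  have hev : ∀ᶠ n : ℕ in atTop, m₂ / 2 * n ≤ ∑ i ∈ range n, X i x := by
    filter_upwards [hx.eventually (lt_mem_nhds (half_lt_self hpos)), eventually_gt_atTop 0]
      with n hn hn0
    have hn0' : (0 : ℝ) < n := by exact_mod_cast hn0
    rw [lt_div_iff₀ hn0'] at hn
    exact hn.le
  filter_upwards [Nat.tendsto_primeCounting.eventually hev] with y hy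
  rw [← sum_primes (fun p => |x p|) y]
  have h2 : ∀ i, X i x / 2 ≤ |x (Nat.nth Nat.Prime i)| := by
    intro i
    show x (Nat.nth Nat.Prime i) ^ 2 / 2 ≤ _
    rw [← sq_abs]
    have h3 := hx2 (Nat.nth Nat.Prime i)
    nlinarith [abs_nonneg (x (Nat.nth Nat.Prime i))]
  calc m₂ / 4 * (Nat.primeCounting y : ℝ) = (m₂ / 2 * (Nat.primeCounting y : ℝ)) / 2 := by ring
    _ ≤ (∑ i ∈ range (Nat.primeCounting y), X i x) / 2 := by linarith
    _ = ∑ i ∈ range (Nat.primeCounting y), X i x / 2 := by rw [Finset.sum_div]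
    _ ≤ _ := Finset.sum_le_sum fun i _ => h2 i

end Pool.Agent.T2H95.LR
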