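import Pool.Agent.T2H95.LR.Low

set_option autoImplicit false

open MeasureTheory Filter Topology Finset

namespace Pool.Agent.T2H95.LR

/-- the largest absolute value of a sum `∑_{n ≤ N} λ_x(n) χ(n) n^{-1/2-it}`, `χ` mod `q ≤ Q`, `N ≤ Q`, `|t| ≤ Q` -/
noncomputable def Mx (x : ℕ → ℝ) (Q : ℕ) : ℝ :=
  sSup {r : ℝ | ∃ (q N : ℕ) (χ : DirichletCharacter ℂ q) (t : ℝ), 1 ≤ q ∧ q ≤ Q ∧ N ≤ Q ∧ |t| ≤ Q ∧
    r = ‖S x χ N t‖}

namespace MAX

lemma log_ratio (c C : ℝ) (hc : 0 < c) (M : ℕ → ℝ)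
    (h : ∀ᶠ Q : ℕ in atTop, Real.exp (c * Real.sqrt (Real.log Q) / Real.log (Real.log Q)) ≤ M Q ∧
      M Q ≤ Real.exp (C * Real.sqrt (Real.log Q * Real.log (Real.log Q)))) :
    Tendsto (fun Q : ℕ => Real.log (Real.log (M Q)) / Real.log (Real.log Q)) atTop (𝓝 (1 / 2)) := by
  have hL : Tendsto (fun Q : ℕ => Real.log (Q : ℝ)) atTop atTop :=
    Real.tendsto_log_atTop.comp tendsto_natCast_atTop_atTop
  have hl : Tendsto (fun Q : ℕ => Real.log (Real.log (Q : ℝ))) atTop atTop := Real.tendsto_log_atTop.comp hL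
  have hll0 : Tendsto (fun u : ℝ => Real.log u / u) atTop (𝓝 0) :=
    (Real.isLittleO_log_id_atTop.tendsto_div_nhds_zero)
  have hll := hll0.comp hl
  have hinv := (tendsto_inv_atTop_zero.comp hl)
  set C1 : ℝ := max C 1 with hC1
  have hC1pos : 0 < C1 := lt_of_lt_of_le one_pos (le_max_right _ _)
  have hlow : Tendsto (fun Q : ℕ => 1 / 2 + Real.log c * (Real.log (Real.log (Q : ℝ)))⁻¹ -
      Real.log (Real.log (Real.log (Q : ℝ))) / Real.log (Real.log (Q : ℝ))) atTop (𝓝 (1 / 2)) := by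
    have := ((hinv.const_mul (Real.log c)).const_add (1 / 2)).sub hll
    simpa using this
  have hup : Tendsto (fun Q : ℕ => 1 / 2 + Real.log C1 * (Real.log (Real.log (Q : ℝ)))⁻¹ +
      1 / 2 * (Real.log (Real.log (Real.log (Q : ℝ))) / Real.log (Real.log (Q : ℝ)))) atTop (𝓝 (1 / 2)) := by
    have := ((hinv.const_mul (Real.log C1)).const_add (1 / 2)).add (hll.const_mul (1 / 2))
    simpa using this
  refine tendsto_of_tendsto_of_tendsto_of_le_of_le' hlow hup ?_ ?_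
  · filter_upwards [h, hL.eventually_gt_atTop 1, hl.eventually_gt_atTop 1] with Q hQ h1 h2
    set L := Real.log (Q : ℝ) with hLd
    set l := Real.log L with hld
    have hsL : 0 < Real.sqrt L := Real.sqrt_pos.2 (by linarith)
    have hl0 : 0 < l := by linarith
    have e1 : c * Real.sqrt L / l ≤ Real.log (M Q) := by
      rw [Real.le_log_iff_exp_le (lt_of_lt_of_le (Real.exp_pos _) hQ.1)]
      exact hQ.1
    have hpos : 0 < c * Real.sqrt L / l := by positivity
    have e2 : Real.log (c * Real.sqrt L / l) ≤ Real.log (Real.log (M Q)) := Real.log_le_log hpos e1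
    have e3 : Real.log (c * Real.sqrt L / l) = Real.log c + 1 / 2 * l - Real.log l := by
      rw [Real.log_div (by positivity) hl0.ne', Real.log_mul hc.ne' hsL.ne', Real.log_sqrt (by linarith)]
      ring
    rw [le_div_iff₀ hl0]
    have e4 : (1 / 2 + Real.log c * l⁻¹ - Real.log l / l) * l = Real.log c + 1 / 2 * l - Real.log l := by
      field_simp
      ring
    rw [e4, ← e3]
    exact e2
  · filter_upwards [h, hL.eventually_gt_atTop 1, hl.eventually_gt_atTop 1] with Q hQ h1 h2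
    set L := Real.log (Q : ℝ) with hLd
    set l := Real.log L with hld
    have hsL : 0 < Real.sqrt L := Real.sqrt_pos.2 (by linarith)
    have hl0 : 0 < l := by linarith
    have hM0 : 0 < M Q := lt_of_lt_of_le (Real.exp_pos _) hQ.1
    have e0 : 0 < Real.log (M Q) := by
      have e1 : c * Real.sqrt L / l ≤ Real.log (M Q) := by
        rw [Real.le_log_iff_exp_le hM0]
        exact hQ.1
      have hpos : 0 < c * Real.sqrt L / l := by positivity
      linarith
    have e1 : Real.log (M Q) ≤ C1 * Real.sqrt (L * l) := by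
      have : Real.log (M Q) ≤ C * Real.sqrt (L * l) := by
        rw [Real.log_le_iff_le_exp hM0]
        exact hQ.2
      refine this.trans ?_
      gcongr
      exact le_max_left _ _
    have hLl : 0 < L * l := by positivity
    have e2 : Real.log (Real.log (M Q)) ≤ Real.log (C1 * Real.sqrt (L * l)) := Real.log_le_log e0 e1
    have e3 : Real.log (C1 * Real.sqrt (L * l)) = Real.log C1 + 1 / 2 * l + 1 / 2 * Real.log l := by
      rw [Real.log_mul hC1pos.ne' (Real.sqrt_pos.2 hLl).ne', Real.log_sqrt hLl.le,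
        Real.log_mul (by linarith) hl0.ne']
      ring
    rw [div_le_iff₀ hl0]
    have e4 : (1 / 2 + Real.log C1 * l⁻¹ + 1 / 2 * (Real.log l / l)) * l =
        Real.log C1 + 1 / 2 * l + 1 / 2 * Real.log l := by
      field_simp
      ring
    rw [e4, ← e3]
    exact e2

end MAX

/-- Both bounds for the maximum, and the exponent `1/2`. -/
theorem max_all (hLOW : S_LOW) (hFIN : S_FIN) (μ₀ : Measure ℝ) [IsProbabilityMeasure μ₀] (hb : ∀ᵐ x ∂μ₀, |x| ≤ 2)
    (hs : μ₀.map (fun x => -x) = μ₀) (hv : 0 < ∫ x, x ^ 2 ∂μ₀) :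
    ∀ᵐ x ∂(Measure.infinitePi fun _ : ℕ => μ₀),
      (∃ c C : ℝ, 0 < c ∧ ∀ᶠ Q : ℕ in atTop,
        Real.exp (c * Real.sqrt (Real.log Q) / Real.log (Real.log Q)) ≤ Mx x Q ∧
        Mx x Q ≤ Real.exp (C * Real.sqrt (Real.log Q * Real.log (Real.log Q)))) ∧
      Tendsto (fun Q : ℕ => Real.log (Real.log (Mx x Q)) / Real.log (Real.log Q)) atTop (𝓝 (1 / 2)) := by
  obtain ⟨c, hc, hlow⟩ := hLOW μ₀ hb hv
  have hadm : Adm (fun _ : ℕ => μ₀) := ⟨fun _ => inferInstance, fun _ => hb, fun _ => hs⟩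
  filter_upwards [hlow, hFIN _ hadm] with x h1 h2
  obtain ⟨C, hC⟩ := h2
  have key : ∀ᶠ Q : ℕ in atTop,
      Real.exp (c * Real.sqrt (Real.log Q) / Real.log (Real.log Q)) ≤ Mx x Q ∧
        Mx x Q ≤ Real.exp (C * Real.sqrt (Real.log Q * Real.log (Real.log Q))) := by
    filter_upwards [h1, eventually_ge_atTop 3] with Q hQ h3
    have hup : ∀ r ∈ {r : ℝ | ∃ (q N : ℕ) (χ : DirichletCharacter ℂ q) (t : ℝ), 1 ≤ q ∧ q ≤ Q ∧ N ≤ Q ∧ |t| ≤ Q ∧
        r = ‖S x χ N t‖}, r ≤ Real.exp (C * Real.sqrt (Real.log Q * Real.log (Real.log Q))) := by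
      rintro r ⟨q, N, χ, t, a1, a2, a3, a4, rfl⟩
      exact hC Q q N χ t (by exact_mod_cast h3) a1 (by exact_mod_cast a2) (by exact_mod_cast a3) a4
    obtain ⟨q, N, χ, hq, hqQ, hNQ, hle⟩ := hQ
    constructor
    · refine hle.trans (le_csSup ⟨_, hup⟩ ?_)
      exact ⟨q, N, χ, 0, hq.one_le, hqQ, hNQ, by simp, rfl⟩
    · refine csSup_le ⟨‖S x χ N 0‖, q, N, χ, 0, hq.one_le, hqQ, hNQ, by simp, rfl⟩ hup
  exact ⟨⟨c, C, hc, key⟩, MAX.log_ratio c C hc _ key⟩

end Pool.Agent.T2H95.LR
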