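import Pool.Agent.T2H95.LR.Low

/-!
# Package PI: Chebyshev's lower bound
-/

set_option autoImplicit false

open MeasureTheory Filter Topology Finset

namespace Pool.Agent.T2H95.LR

theorem pPI : S_PI := by
  have hl2 : 0 < Real.log 2 := Real.log_pos (by norm_num)
  refine ⟨Real.log 2 / 2, by positivity, ?_⟩
  have h1 := (Real.isLittleO_log_id_atTop.comp_tendsto
    (tendsto_natCast_atTop_atTop (R := ℝ))).bound (show (0 : ℝ) < Real.log 2 / 4 by positivity)
  filter_upwards [h1, eventually_ge_atTop 4] with y hy hy4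
  have hy4' : (4 : ℝ) ≤ (y : ℝ) := by exact_mod_cast hy4
  have hlog : 0 < Real.log y := Real.log_pos (by linarith)
  have h2 := Chebyshev.pi_ge y
  refine le_trans ?_ h2
  rw [div_le_div_iff_of_pos_right hlog]
  have h3 : Real.log ((y : ℝ) + 1) ≤ Real.log 2 + Real.log y := by
    rw [← Real.log_mul (by norm_num) (by linarith)]
    exact Real.log_le_log (by linarith) (by linarith)
  simp only [Function.comp_apply, id, Real.norm_eq_abs] at hy
  rw [abs_of_pos hlog, abs_of_pos (by linarith : (0 : ℝ) < (y : ℝ))] at hy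
  nlinarith [hy, h3, mul_le_mul_of_nonneg_left hy4' hl2.le]

end Pool.Agent.T2H95.LR
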