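import Pool.Agent.T2H95.LR.HE
import Pool.Agent.T2H95.LR.LAM
import Pool.Agent.T2H95.LR.PAR
import Pool.Agent.T2H95.LR.EXP
import Pool.Agent.T2H95.LR.REF
import Pool.Agent.T2H95.LR.MAT
import Pool.Agent.T2H95.LR.SQC
import Pool.Agent.T2H95.LR.TT
import Pool.Agent.T2H95.LR.CNT
import Pool.Agent.T2H95.LR.MOM
import Pool.Agent.T2H95.LR.OPT
import Pool.Agent.T2H95.LR.BC
import Pool.Agent.T2H95.LR.GRD
import Pool.Agent.T2H95.LR.FIN
import Pool.Agent.T2H95.LR.ORTH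
import Pool.Agent.T2H95.LR.FACT
import Pool.Agent.T2H95.LR.LLN
import Pool.Agent.T2H95.LR.PI
import Pool.Agent.T2H95.LR.ASM
import Pool.Agent.T2H95.LR.MAX

/-! Assembly of project LR. -/

set_option autoImplicit false

namespace Pool.Agent.T2H95.LR

theorem mom_all : S_MOM :=
  pMOM (pEXP (pLAM pHE) (pPAR pHE (pLAM pHE))) (pCNT (pSQC pREF) (pTT (pMAT pREF)))

theorem fin_all : S_FIN := pFIN (pBC mom_all pOPT) (pGRD (pLAM pHE))

theorem low_all : S_LOW := pLOW pORTH pFACT pLLN pPI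

end Pool.Agent.T2H95.LR
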