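import Pool.Agent.T2H95.LR.Stm

/-!
# Addition to project LR/LF (helper95): the maximal size of the twists is `exp ((log Q)^(1/2 + o(1)))`

Lower bound complementing LR: for almost every sequence `x` of independent Satake traces with one common law `μ₀`
(`|x| ≤ 2`, `∫ x² > 0`), for all large `Q` there are a prime `q ≤ Q`, a character `χ` mod `q` and `N ≤ Q` with
`|∑_{n ≤ N} λ_x(n) χ(n) n^{-1/2}| ≥ exp (c √(log Q) / log log Q)`. Resonance: `N = P = ∏_{p ≤ y} p ≤ 4^y`, `y = ⌊log Q / 6⌋`.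
Four short independent packages. File `Pool/Agent/T2H95/LR/<ID>.lean`, `import Pool.Agent.T2H95.LR.Low`,
`namespace Pool.Agent.T2H95.LR`, `theorem p<ID> : S_<ID>`, own lemmas in namespace `<ID>`.
-/

set_option autoImplicit false

open MeasureTheory Filter Topology Finset

namespace Pool.Agent.T2H95.LR

/-- ORTH (20 min). `T = ∑_χ (∑_n a_n χ(n)) (∑_m r_m χ(m)) conj (∑_{m'} r_{m'} χ(m'))` over all characters mod the prime `q`.
By orthogonality (`DirichletCharacter.sum_char_inv_mul_char_eq`; all `n, m, m'` are units as they are `< q`)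
`T = φ(q) ∑_{n m ≡ m' (q)} a_n r_m r_{m'}`, and `n m ≤ N M < q`, `m' < q` turn the congruence into `n m = m'` (`≤ M`).
And `|T| ≤ B ∑_χ |∑_m r_m χ(m)|² = B φ(q) ∑_m r_m²` (the same orthogonality). -/
def S_ORTH : Prop := ∀ (q : ℕ) [Fact q.Prime] (N M : ℕ) (a r : ℕ → ℝ) (B : ℝ), N * M < q → M < q → N < q →
  (∀ χ : DirichletCharacter ℂ q, ‖∑ n ∈ Icc 1 N, (a n : ℂ) * χ n‖ ≤ B) →
  ∑ n ∈ Icc 1 N, ∑ m ∈ Icc 1 M, (if n * m ≤ M then a n * r m * r (n * m) else 0) ≤ B * ∑ m ∈ Icc 1 M, r m ^ 2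

/-- FACT (20 min). Take `r m = ∏_{p | m} sgn(x_p)` (`sgn = 1` for `x_p ≥ 0`, `-1` for `x_p < 0`) if `m ∣ P`, `0` otherwise,
`P = primorial y` (squarefree). Then `∑ r² = #divisors(P) = 2^{π(y)}`, and the right side is the sum over the `n, m` with
`n m ∣ P` of `∏_{p | n} |x_p| / √p` (`lam x n = ∏_{p | n} x_p` for squarefree `n`, as `he x 1 = x`; `r m * r (n m) = r n`),
that is `∑_{n ∣ P} g(n) 2^{π(y) - ω(n)} = 2^{π(y)} ∏_{p ≤ y} (1 + g(p)/2)`, `g(p) = |x_p| / √p`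
(`ArithmeticFunction.IsMultiplicative.prodPrimeFactors_one_add_of_squarefree`, or expand the product over subsets). -/
def S_FACT : Prop := ∀ (x : ℕ → ℝ) (y : ℕ), ∃ r : ℕ → ℝ, 0 < ∑ m ∈ Icc 1 (primorial y), r m ^ 2 ∧
  (∏ p ∈ (range (y + 1)).filter Nat.Prime, (1 + |x p| / (2 * Real.sqrt p))) * ∑ m ∈ Icc 1 (primorial y), r m ^ 2 ≤
    ∑ n ∈ Icc 1 (primorial y), ∑ m ∈ Icc 1 (primorial y),
      (if n * m ≤ primorial y then (lam x n / Real.sqrt n) * r m * r (n * m) else 0)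

/-- LLN (20 min). `ProbabilityTheory.strong_law_ae_real` for `X_i(x) = x(p_i)²`, `p_i = Nat.nth Nat.Prime i` (independent and
identically distributed under the product measure: `iIndepFun_infinitePi`, `Measure.infinitePi_map_eval`), and
`|x| ≥ x²/2` for `|x| ≤ 2`; take `c = (∫ x²)/4`. -/
def S_LLN : Prop := ∀ (μ₀ : Measure ℝ) [IsProbabilityMeasure μ₀], (∀ᵐ x ∂μ₀, |x| ≤ 2) → 0 < ∫ x, x ^ 2 ∂μ₀ →
  ∃ c : ℝ, 0 < c ∧ ∀ᵐ x ∂(Measure.infinitePi fun _ : ℕ => μ₀), ∀ᶠ y : ℕ in atTop,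
    c * (Nat.primeCounting y : ℝ) ≤ ∑ p ∈ (range (y + 1)).filter Nat.Prime, |x p|

/-- PI (10 min). Chebyshev's lower bound (Mathlib `Chebyshev`, or the pool library). -/
def S_PI : Prop := ∃ c : ℝ, 0 < c ∧ ∀ᶠ y : ℕ in atTop, c * y / Real.log y ≤ (Nat.primeCounting y : ℝ)

/-- ASM (helper95). -/
def S_LOW : Prop := ∀ (μ₀ : Measure ℝ) [IsProbabilityMeasure μ₀], (∀ᵐ x ∂μ₀, |x| ≤ 2) → 0 < ∫ x, x ^ 2 ∂μ₀ →
  ∃ c : ℝ, 0 < c ∧ ∀ᵐ x ∂(Measure.infinitePi fun _ : ℕ => μ₀), ∀ᶠ Q : ℕ in atTop,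
    ∃ (q N : ℕ) (χ : DirichletCharacter ℂ q), q.Prime ∧ q ≤ Q ∧ N ≤ Q ∧
      Real.exp (c * Real.sqrt (Real.log Q) / Real.log (Real.log Q)) ≤ ‖S x χ N 0‖

end Pool.Agent.T2H95.LR
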