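import Pool.Agent.T2H95.LR.Low

set_option autoImplicit false

open MeasureTheory Filter Topology Finset

namespace Pool.Agent.T2H95.LR

namespace ORTH

theorem orth (q : ℕ) [hq : Fact q.Prime] (b c : ℕ) (hb : b < q) (hc0 : 1 ≤ c) (hc : c < q) :
    ∑ χ : DirichletCharacter ℂ q, χ (b : ZMod q) * (starRingEnd ℂ) (χ (c : ZMod q)) =
      if b = c then (q.totient : ℂ) else 0 := by
  classical
  have hcu : IsUnit (c : ZMod q) := by
    rw [isUnit_iff_ne_zero, Ne, ZMod.natCast_eq_zero_iff]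
    intro h
    exact absurd (Nat.le_of_dvd (by omega) h) (by omega)
  have h1 := DirichletCharacter.sum_char_inv_mul_char_eq ℂ hcu (b : ZMod q)
  have h2 : ∑ χ : DirichletCharacter ℂ q, χ (b : ZMod q) * (starRingEnd ℂ) (χ (c : ZMod q)) =
      ∑ χ : DirichletCharacter ℂ q, χ (c : ZMod q)⁻¹ * χ (b : ZMod q) := by
    refine sum_congr rfl fun χ _ => ?_
    have h3 : (starRingEnd ℂ) (χ (c : ZMod q)) = χ (c : ZMod q)⁻¹ := by
      rw [← MulChar.inv_apply', ← MulChar.star_apply']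
      rfl
    rw [h3, mul_comm]
  rw [h2, h1]
  have h4 : ((c : ZMod q) = (b : ZMod q)) ↔ b = c := by
    rw [ZMod.natCast_eq_natCast_iff']
    rw [Nat.mod_eq_of_lt hb, Nat.mod_eq_of_lt hc]
    exact eq_comm
  simp only [h4]

theorem swap {α : Type} [Fintype α] (I J : Finset ℕ) (t : ℕ → ℕ → ℕ → ℂ)
    (g : α → ℕ → ℕ → ℕ → ℂ) :
    ∑ χ : α, ∑ n ∈ I, ∑ m ∈ J, ∑ k ∈ J, t n m k * g χ n m k =
      ∑ n ∈ I, ∑ m ∈ J, ∑ k ∈ J, t n m k * ∑ χ : α, g χ n m k := by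
  rw [sum_comm]
  refine sum_congr rfl fun n _ => ?_
  rw [sum_comm]
  refine sum_congr rfl fun m _ => ?_
  rw [sum_comm]
  refine sum_congr rfl fun k _ => ?_
  rw [mul_sum]

theorem expand (q : ℕ) [Fact q.Prime] (N M : ℕ) (a r : ℕ → ℝ) (χ : DirichletCharacter ℂ q) :
    (∑ n ∈ Icc 1 N, (a n : ℂ) * χ n) * ((∑ m ∈ Icc 1 M, (r m : ℂ) * χ m) *
      (starRingEnd ℂ) (∑ m ∈ Icc 1 M, (r m : ℂ) * χ m)) =
    ∑ n ∈ Icc 1 N, ∑ m ∈ Icc 1 M, ∑ k ∈ Icc 1 M, ((a n : ℂ) * r m * r k) *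
      (χ ((n * m : ℕ) : ZMod q) * (starRingEnd ℂ) (χ (k : ZMod q))) := by
  rw [map_sum, sum_mul_sum, sum_mul_sum]
  refine sum_congr rfl fun n _ => ?_
  refine (sum_congr rfl fun m _ => ?_)
  rw [mul_sum]
  refine sum_congr rfl fun k _ => ?_
  rw [map_mul, Complex.conj_ofReal, Nat.cast_mul, map_mul]
  ring

theorem main (q : ℕ) [Fact q.Prime] (N M : ℕ) (a r : ℕ → ℝ) (hNM : N * M < q) (hM : M < q) :
    ∑ χ : DirichletCharacter ℂ q, (∑ n ∈ Icc 1 N, (a n : ℂ) * χ n) *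
      ((∑ m ∈ Icc 1 M, (r m : ℂ) * χ m) * (starRingEnd ℂ) (∑ m ∈ Icc 1 M, (r m : ℂ) * χ m)) =
    ((∑ n ∈ Icc 1 N, ∑ m ∈ Icc 1 M, (if n * m ≤ M then a n * r m * r (n * m) else 0) : ℝ) : ℂ) *
      (q.totient : ℂ) := by
  classical
  rw [sum_congr rfl fun χ _ => expand q N M a r χ, swap]
  rw [Complex.ofReal_sum, sum_mul]
  refine sum_congr rfl fun n hn => ?_
  rw [Complex.ofReal_sum, sum_mul]
  refine sum_congr rfl fun m hm => ?_
  rw [mem_Icc] at hn hm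
  have hnm : n * m < q := lt_of_le_of_lt (Nat.mul_le_mul hn.2 hm.2) hNM
  have hnm1 : 1 ≤ n * m := Nat.mul_pos hn.1 hm.1
  have h1 : ∀ k ∈ Icc 1 M, ((a n : ℂ) * r m * r k) * ∑ χ : DirichletCharacter ℂ q,
      (χ ((n * m : ℕ) : ZMod q) * (starRingEnd ℂ) (χ (k : ZMod q))) =
      if n * m = k then ((a n : ℂ) * r m * r k) * q.totient else 0 := by
    intro k hk
    rw [mem_Icc] at hk
    rw [orth q (n * m) k hnm hk.1 (lt_of_le_of_lt hk.2 hM), mul_ite, mul_zero]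
  rw [sum_congr rfl h1, sum_ite_eq]
  by_cases h : n * m ≤ M
  · rw [if_pos (mem_Icc.2 ⟨hnm1, h⟩), if_pos h]
    push_cast
    ring
  · rw [if_neg (fun h' => h (mem_Icc.1 h').2), if_neg h]
    simp

end ORTH

theorem pORTH : S_ORTH := by
  classical
  intro q hq N M a r B hNM hM hN hB
  have hM1 := ORTH.main q N M a r hNM hM
  have hM2 := ORTH.main q 1 M (fun _ => 1) r (by omega) hM
  have hq1 : 0 < q.totient := Nat.totient_pos.2 hq.out.pos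
  have hφ : (0 : ℝ) < q.totient := by exact_mod_cast hq1
  obtain ⟨L, hL⟩ : ∃ L : ℝ, L = ∑ n ∈ Icc 1 N, ∑ m ∈ Icc 1 M,
      (if n * m ≤ M then a n * r m * r (n * m) else 0) := ⟨_, rfl⟩
  have hq2 : 1 < q := hq.out.one_lt
  -- the second moment
  have hsq : ∑ χ : DirichletCharacter ℂ q, ‖∑ m ∈ Icc 1 M, (r m : ℂ) * χ m‖ ^ 2 =
      (∑ m ∈ Icc 1 M, r m ^ 2) * q.totient := by
    have h1 : ((∑ χ : DirichletCharacter ℂ q, ‖∑ m ∈ Icc 1 M, (r m : ℂ) * χ m‖ ^ 2 : ℝ) : ℂ) =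
        (((∑ m ∈ Icc 1 M, r m ^ 2) * q.totient : ℝ) : ℂ) := by
      have h2 : ((∑ χ : DirichletCharacter ℂ q, ‖∑ m ∈ Icc 1 M, (r m : ℂ) * χ m‖ ^ 2 : ℝ) : ℂ) =
          ∑ χ : DirichletCharacter ℂ q, (∑ n ∈ Icc 1 1, (((fun _ => 1 : ℕ → ℝ) n : ℝ) : ℂ) * χ n) *
      ((∑ m ∈ Icc 1 M, (r m : ℂ) * χ m) * (starRingEnd ℂ) (∑ m ∈ Icc 1 M, (r m : ℂ) * χ m)) := by
        push_cast
        refine sum_congr rfl fun χ _ => ?_
        rw [Complex.mul_conj, Complex.normSq_eq_norm_sq]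
        simp
      rw [h2, hM2]
      push_cast
      congr 1
      simp only [Icc_self, sum_singleton, one_mul]
      refine sum_congr rfl fun m hm => ?_
      rw [if_pos (mem_Icc.1 hm).2]
      push_cast
      ring
    exact_mod_cast h1
  have hT : L * q.totient ≤ B * ((∑ m ∈ Icc 1 M, r m ^ 2) * q.totient) := by
    have h1 : ‖((L : ℝ) : ℂ) * (q.totient : ℂ)‖ ≤
        ∑ χ : DirichletCharacter ℂ q, B * ‖∑ m ∈ Icc 1 M, (r m : ℂ) * χ m‖ ^ 2 := by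
      rw [hL, ← hM1]
      refine (norm_sum_le _ _).trans (sum_le_sum fun χ _ => ?_)
      rw [norm_mul, Complex.mul_conj, Complex.normSq_eq_norm_sq]
      have h2 : ‖((‖∑ m ∈ Icc 1 M, (r m : ℂ) * χ m‖ ^ 2 : ℝ) : ℂ)‖ =
          ‖∑ m ∈ Icc 1 M, (r m : ℂ) * χ m‖ ^ 2 := by
        rw [Complex.norm_real, Real.norm_of_nonneg (by positivity)]
      rw [h2]
      exact mul_le_mul_of_nonneg_right (hB χ) (by positivity)
    rw [← mul_sum, hsq] at h1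
    refine le_trans ?_ h1
    have h3 : ‖((L : ℝ) : ℂ) * (q.totient : ℂ)‖ = |L| * q.totient := by
      rw [norm_mul, Complex.norm_real, Complex.norm_natCast, Real.norm_eq_abs]
    rw [h3]
    exact mul_le_mul_of_nonneg_right (le_abs_self L) hφ.le
  rw [← hL]
  rw [← mul_assoc] at hT
  exact le_of_mul_le_mul_right hT hφ

end Pool.Agent.T2H95.LR
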