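import Mathlib

/-!
# Project LR (helper95): MP_21d687_nt, Lindelöf bound for twists of `PGL_2` L-functions

THEOREM (metric form of the Lindelöf bound over `ℚ`). Give every prime `p` a probability measure `μ_p` on
`[-2, 2]`, symmetric under `x ↦ -x` (Sato–Tate measure, Plancherel measure of `PGL_2(ℚ_p)`, ...). For almost every
sequence `x = (x_p)` of Satake traces (that is, for almost every everywhere unramified tempered representation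
`π_x = ⊗ π_{x_p}` of `PGL_2(𝔸_f)`) there is `C` such that for all `Q ≥ 3` and ALL Dirichlet characters `χ` modulo
`q ≤ Q` (in particular all quadratic characters `χ_D`, `|D| ≤ Q`), all `N ≤ Q`, all real `|t| ≤ Q`,
`|∑_{n ≤ N} λ_x(n) χ(n) n^{-1/2-it}| ≤ exp (C √(log Q · log log Q))`.

Every package is INDEPENDENT (what it needs from others are hypotheses). File `Pool/Agent/T2H95/LR/<ID>.lean`:
`import Pool.Agent.T2H95.LR.Stm`, `namespace Pool.Agent.T2H95.LR`, `theorem p<ID> (h : S_dep) .. : S_<ID>`; put your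
own lemmas in a namespace `<ID>`.
-/

set_option autoImplicit false

open MeasureTheory Filter Topology Finset

namespace Pool.Agent.T2H95.LR

/-- the Hecke eigenvalue `λ(p^j) = U_j(x/2)` for the Satake trace `x = λ(p)` -/
noncomputable def he (x : ℝ) : ℕ → ℝ
  | 0 => 1
  | 1 => x
  | (j + 2) => x * he x (j + 1) - he x j

/-- the multiplicative function `λ_x(n) = ∏_{p | n} λ(p^{v_p(n)})` -/
noncomputable def lam (x : ℕ → ℝ) (n : ℕ) : ℝ := ∏ p ∈ n.primeFactors, he (x p) (n.factorization p)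

/-- the partial sums `∑_{n ≤ N} λ_x(n) χ(n) n^{-1/2-it}` of the twisted L-series at `1/2 + it` -/
noncomputable def S (x : ℕ → ℝ) {q : ℕ} (χ : DirichletCharacter ℂ q) (N : ℕ) (t : ℝ) : ℂ :=
  ∑ n ∈ Icc 1 N, (lam x n : ℂ) * χ n * (n : ℂ) ^ (-(1 / 2 : ℂ) - t * Complex.I)

/-- a weighted sum `∑_{n ≤ N} λ_x(n) g(n) / √n` -/
noncomputable def W (x : ℕ → ℝ) (g : ℕ → ℂ) (N : ℕ) : ℂ :=
  ∑ n ∈ Icc 1 N, (lam x n : ℂ) * g n * ((1 / Real.sqrt n : ℝ) : ℂ)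

/-- the harmonic sum -/
noncomputable def H (M : ℕ) : ℝ := ∑ n ∈ Icc 1 M, 1 / (n : ℝ)

/-- probability measures on `[-2, 2]`, symmetric under `x ↦ -x` -/
structure Adm (μ : ℕ → Measure ℝ) : Prop where
  prob : ∀ p, IsProbabilityMeasure (μ p)
  bdd : ∀ p, ∀ᵐ x ∂(μ p), |x| ≤ 2
  symm : ∀ p, (μ p).map (fun x => -x) = μ p

/-- HE (20 min, no Deps). `he x j` is a polynomial in `x`; parity by induction. Bound: induction on the statement
`|he x j| ≤ j + 1` is not direct; use `x = 2 cos φ` and `he x j * sin φ = sin ((j+1) φ)` with `|sin ((j+1)φ)| ≤ (j+1) |sin φ|`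
(`sin φ ≠ 0`), and for `sin φ = 0` (`x = ±2`) `he (±2) j = (±1)^j (j+1)`; or Mathlib's `Polynomial.Chebyshev.U`
(`Polynomial.Chebyshev.abs_eval_U_real_le`-type lemmas if present). -/
def S_HE : Prop :=
  (∀ (x : ℝ) (j : ℕ), he (-x) j = (-1) ^ j * he x j) ∧
  (∀ (x : ℝ) (j : ℕ), |x| ≤ 2 → |he x j| ≤ j + 1) ∧
  (∀ j : ℕ, Continuous fun x : ℝ => he x j)

/-- LAM (20 min, Deps: HE). `d(n) = ∏ (v_p(n) + 1)` (`Nat.card_divisors`); continuity: finite product of coordinates.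
`lam x 1 = 1`. -/
def S_LAM : Prop :=
  (∀ (x : ℕ → ℝ) (n : ℕ), (∀ p, |x p| ≤ 2) → 1 ≤ n → |lam x n| ≤ n.divisors.card) ∧
  (∀ n : ℕ, Continuous fun x : ℕ → ℝ => lam x n)

/-- PAR (30 min, Deps: HE, LAM). Orthogonality by parity. If `∏ v_i` is not a square there is a prime `p` with
`∑_i v_p(v_i)` odd. The map `F` changing the sign of the coordinate `p` preserves `P = infinitePi μ`
(`Measure.infinitePi_map_pi` and `Adm.symm`), and `∏_i lam (F x) (v_i) = - ∏_i lam x (v_i)` (`he (-x) j = (-1)^j he x j`;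
`v_p(n) = 0` if `p ∉ primeFactors n`, `he x 0 = 1`). So the integral equals its negative (`integral_map` /
`MeasurePreserving.integral_comp'`). -/
def S_PAR : Prop := ∀ (μ : ℕ → Measure ℝ), Adm μ → ∀ (J : Type) [Fintype J] (v : J → ℕ), (∀ j, v j ≠ 0) →
  (¬ ∃ m : ℕ, ∏ j, v j = m ^ 2) → ∫ x, ∏ j, lam x (v j) ∂(Measure.infinitePi μ) = 0

/-- the tuples in `[1, N]^J` whose product is a square -/
noncomputable def sqT (J : Type) [Fintype J] [DecidableEq J] (N : ℕ) : Finset (J → ℕ) := by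
  classical
  exact (Fintype.piFinset fun _ : J => Icc 1 N).filter fun v => ∃ m : ℕ, ∏ j, v j = m ^ 2

/-- EXP (45 min, Deps: LAM, PAR). `‖W‖^{2k} = W^k conj(W)^k = ∏_{j ∈ Fin k ⊕ Fin k} W_j`, `W_{inl} = W`,
`W_{inr} = conj W`; expand (`Finset.prod_univ_sum`), integrate termwise (the integrands are bounded a.e., since a.e.
`|x p| ≤ 2` for all `p`: `ae_all_iff`, `Measure.infinitePi_map_eval`); the terms with non-square product vanish by PAR, the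
others are at most `∏ d(v_j) / √v_j` in absolute value. -/
def S_EXP : Prop := ∀ (μ : ℕ → Measure ℝ), Adm μ → ∀ (g : ℕ → ℂ), (∀ n, ‖g n‖ ≤ 1) → ∀ k N : ℕ, 1 ≤ k →
  Integrable (fun x => ‖W x g N‖ ^ (2 * k)) (Measure.infinitePi μ) ∧
  ∫ x, ‖W x g N‖ ^ (2 * k) ∂(Measure.infinitePi μ) ≤
    ∑ v ∈ sqT (Fin k ⊕ Fin k) N, ∏ j, ((v j).divisors.card : ℝ) / Real.sqrt (v j)

/-- REF (20 min, no Deps). Refinement. Induction on the finite set (or on `Fin n` and transport): with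
`g = gcd(w 0, a)`, `w 0 = g w'`, `a = g a'`, `gcd(w', a') = 1` we get `w' | b`, `b = w' b'`, `∏ tail = a' b'`.
(`exists_dvd_and_dvd_of_dvd_mul`, `DecompositionMonoid`.) -/
def S_REF : Prop := ∀ (ι : Type) [Fintype ι] (w : ι → ℕ) (a b : ℕ), a ≠ 0 → b ≠ 0 → ∏ i, w i = a * b →
  ∃ u v : ι → ℕ, (∀ i, w i = u i * v i) ∧ ∏ i, u i = a ∧ ∏ i, v i = b

/-- MAT (20 min, Deps: REF). Induction on `ι`: `∏ v = u_0 · ∏ (tail of u)`, apply REF to `v`. -/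
def S_MAT : Prop := ∀ (ι κ : Type) [Fintype ι] [Fintype κ] (u : ι → ℕ) (v : κ → ℕ) (m : ℕ), m ≠ 0 →
  ∏ i, u i = m → ∏ j, v j = m →
  ∃ x : ι → κ → ℕ, (∀ i, ∏ j, x i j = u i) ∧ ∀ j, ∏ i, x i j = v j

/-- the tuples in `ℕ^J` with product `m` (all entries in `[1, m]`) -/
noncomputable def tup (J : Type) [Fintype J] [DecidableEq J] (m : ℕ) : Finset (J → ℕ) :=
  (Fintype.piFinset fun _ : J => Icc 1 m).filter fun v => ∏ j, v j = m

/-- SQC (20 min, Deps: REF). `(u, v) ↦ u * v` maps `tup m × tup m` onto `tup (m²)`. -/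
def S_SQC : Prop := ∀ (J : Type) [Fintype J] [DecidableEq J] (m : ℕ), 1 ≤ m →
  ((tup J (m ^ 2)).card : ℝ) ≤ ((tup J m).card : ℝ) ^ 2

/-- TT (30 min, Deps: MAT). Every pair `(u, v) ∈ tup m × tup m`, `m ≤ M`, comes from a matrix
`x ∈ [1,M]^{J×J}` with `∏ x = m`; so the left side is at most `∑_x ∏ 1/x_{ij} = H(M)^{|J|²}` (sum over the image of
the matrices under (row products, column products) is at most the sum over the matrices; the weight `1/∏x`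
depends on the image only). -/
def S_TT : Prop := ∀ (J : Type) [Fintype J] [DecidableEq J] (M : ℕ),
  ∑ m ∈ Icc 1 M, ((tup J m).card : ℝ) ^ 2 / m ≤ H M ^ (Fintype.card J ^ 2)

/-- CNT (40 min, Deps: SQC, TT). `d(n)` is the number of pairs `(a, b)` with `ab = n`, so the left side is the sum of
`∏ 1/√u_i` over the `u ∈ ℕ^{J ⊕ J}` with `u_{inl j} u_{inr j} ≤ N` and square product `m²`, `m ≤ N^k` (as `m² ≤ N^{2k}`).
The weight is `1/m`; so it is at most `∑_{m ≤ N^k} |tup (J ⊕ J) (m²)| / m ≤ ∑ |tup m|² / m ≤ H(N^k)^{(4k)²}`,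
`J = Fin k ⊕ Fin k`. -/
def S_CNT : Prop := ∀ k N : ℕ, 1 ≤ k →
  ∑ v ∈ sqT (Fin k ⊕ Fin k) N, ∏ j, ((v j).divisors.card : ℝ) / Real.sqrt (v j) ≤ H (N ^ k) ^ (16 * k ^ 2)

/-- MOM (10 min, Deps: EXP, CNT). `H(M) ≤ 1 + log M` (`harmonic_le_one_add_log`). -/
def S_MOM : Prop := ∀ (μ : ℕ → Measure ℝ), Adm μ → ∀ (g : ℕ → ℂ), (∀ n, ‖g n‖ ≤ 1) → ∀ k N : ℕ, 1 ≤ k → 1 ≤ N →
  Integrable (fun x => ‖W x g N‖ ^ (2 * k)) (Measure.infinitePi μ) ∧
  ∫ x, ‖W x g N‖ ^ (2 * k) ∂(Measure.infinitePi μ) ≤ (1 + k * Real.log N) ^ (16 * k ^ 2)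

/-- OPT (30 min, no Deps). Put `L = log Q`, `l = log log Q`, `k = ⌈√(L/l)⌉`. For large `Q`: `k √(L l) ≥ L`,
`k² ≤ 4 L/l`, `1 + k L ≤ L³`, so `log (1 + k L)^(16 k²) ≤ 16 · 4 · 3 L = 192 L`, and
`8 L + 192 L + 2 L = 202 L ≤ 2 k · 101 √(L l)`. -/
def S_OPT : Prop := ∀ᶠ Q : ℕ in atTop, ∃ k : ℕ, 1 ≤ k ∧
  (Q : ℝ) ^ 8 * (1 + k * Real.log Q) ^ (16 * k ^ 2) ≤
    1 / (Q : ℝ) ^ 2 * Real.exp (101 * Real.sqrt (Real.log Q * Real.log (Real.log Q))) ^ (2 * k)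

/-- BC (50 min, Deps: LAM, MOM, OPT). Markov and Borel–Cantelli. For `Q` large the event
`E_Q = ∃ q ∈ [1,Q], χ mod q, N ∈ [1,Q], j ∈ ℤ, |j| ≤ Q³ : ‖S x χ N (j/Q²)‖ ≥ exp (101 √(L l))` is a union of at most
`Q · Q · Q · (2Q³+1) ≤ Q^8` events (the number of characters mod `q` is `φ(q) ≤ Q`:
`DirichletCharacter.card_eq_totient_of_hasEnoughRootsOfUnity`, finite type), each of probability at most
`V^{-2k} (1 + k log Q)^{16 k²}` by MOM with `g n = χ n · n^{-it}` (`S x χ N t = W x g N`; `mul_meas_ge_le_integral_of_nonneg`).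
So `P(E_Q) ≤ Q^{-2}`, summable (`measure_limsup_atTop_eq_zero` / `ae_eventually_notMem`). -/
def S_BC : Prop := ∀ (μ : ℕ → Measure ℝ), Adm μ → ∀ᵐ x ∂(Measure.infinitePi μ), ∀ᶠ Q : ℕ in atTop,
  ∀ (q N : ℕ) (χ : DirichletCharacter ℂ q) (j : ℤ), 1 ≤ q → q ≤ Q → N ≤ Q → |j| ≤ (Q : ℤ) ^ 3 →
    ‖S x χ N ((j : ℝ) / (Q : ℝ) ^ 2)‖ ≤ Real.exp (101 * Real.sqrt (Real.log Q * Real.log (Real.log Q)))

/-- GRD (25 min, Deps: LAM). `|n^{-it} - n^{-it'}| ≤ |t - t'| log n` (`Complex.norm_exp_sub_exp`-type bound, or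
`|e^{ia} - e^{ib}| ≤ |a - b|`), `|lam x n| ≤ d(n) ≤ n`, `n^{-1/2} ≤ 1`, `log n ≤ n`: each of the `N` terms is at most
`√N · log N · |t-t'|`... any polynomial bound is fine: the one below is crude. -/
def S_GRD : Prop := ∀ (x : ℕ → ℝ), (∀ p, |x p| ≤ 2) → ∀ (q N : ℕ) (χ : DirichletCharacter ℂ q) (t t' : ℝ), 1 ≤ q →
  ‖S x χ N t - S x χ N t'‖ ≤ (N : ℝ) ^ (3 / 2 : ℝ) * Real.log N * |t - t'| ∧
  ‖S x χ N t‖ ≤ (N : ℝ) ^ 2

/-- FIN (35 min, Deps: BC, GRD). Almost every `x` satisfies BC and `|x p| ≤ 2` for all `p`. Given real `Q ≥ 3`, let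
`R = ⌈Q⌉ ≤ 2Q`; if `R ≥ Q₀(x)`, take `j = round (t R²)`, `|j| ≤ R³` (`|t| ≤ R`), `|t - j/R²| ≤ 1/R²`, so
`‖S(t)‖ ≤ exp(101 √(L l)) + R^{3/2} log R / R² ≤ exp (102 √..)`...; and `log R ≤ 2 log Q`, `log log R ≤ C' log log Q`
(`Q ≥ 3`, `log log 3 > 0.09`). For `R < Q₀(x)` use the trivial bound `N² ≤ Q₀²` and `log Q log log Q ≥ log 3 log log 3 > 0`. -/
def S_FIN : Prop := ∀ (μ : ℕ → Measure ℝ), Adm μ → ∀ᵐ x ∂(Measure.infinitePi μ), ∃ C : ℝ,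
  ∀ (Q : ℝ) (q N : ℕ) (χ : DirichletCharacter ℂ q) (t : ℝ), 3 ≤ Q → 1 ≤ q → (q : ℝ) ≤ Q → (N : ℝ) ≤ Q → |t| ≤ Q →
    ‖S x χ N t‖ ≤ Real.exp (C * Real.sqrt (Real.log Q * Real.log (Real.log Q)))

end Pool.Agent.T2H95.LR
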